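import Mathlib

/-!
# Extension of embeddings of rings to automorphisms of `ℂ`

If `S` is an algebra of finite transcendence degree over `R`, then two embeddings of `S` into `ℂ`
which agree on `R` differ by an automorphism of `ℂ`.
-/

namespace Pool.Agent.AHC

open Cardinal

/-- two embeddings of a ring into algebraically closed fields, over which the fields have the same
transcendence degree, differ by an isomorphism -/
theorem exists_ringEquiv {T K L : Type} [CommRing T] [Field K] [IsAlgClosed K]
    [Field L] [IsAlgClosed L] [Algebra T K] [Algebra T L] [FaithfulSMul T K] [FaithfulSMul T L]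
    (hKL : Algebra.trdeg T K = Algebra.trdeg T L) :
    ∃ α : K ≃+* L, ∀ t, α (algebraMap T K t) = algebraMap T L t := by
  have hn : Nontrivial T := (algebraMap T K).domain_nontrivial
  obtain ⟨s, hs⟩ := exists_isTranscendenceBasis T K
  obtain ⟨t, ht⟩ := exists_isTranscendenceBasis T L
  have h3 : #s = #t := by
    rw [hs.cardinalMk_eq_trdeg, ht.cardinalMk_eq_trdeg, hKL]
  obtain ⟨e⟩ := Cardinal.eq.1 h3
  let i1 := IsAlgClosed.isAlgClosure_of_transcendence_basis _ hs
  let i2 := IsAlgClosed.isAlgClosure_of_transcendence_basis _ ht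
  let e1 : Algebra.adjoin T (Set.range ((↑) : s → K)) ≃ₐ[T] Algebra.adjoin T (Set.range ((↑) : t → L)) :=
    (hs.1.aevalEquiv.symm.trans (MvPolynomial.renameEquiv T e)).trans ht.1.aevalEquiv
  refine ⟨IsAlgClosure.equivOfEquiv K L e1.toRingEquiv, fun x => ?_⟩
  have h4 : algebraMap T K x = algebraMap (Algebra.adjoin T (Set.range ((↑) : s → K))) K
      (algebraMap T (Algebra.adjoin T (Set.range ((↑) : s → K))) x) := rfl
  rw [h4, IsAlgClosure.equivOfEquiv_algebraMap]
  have h5 : e1.toRingEquiv (algebraMap T (Algebra.adjoin T (Set.range ((↑) : s → K))) x) =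
      algebraMap T (Algebra.adjoin T (Set.range ((↑) : t → L))) x := e1.commutes x
  rw [h5]
  rfl

/-- two embeddings of `S` into `ℂ` which agree on a subring over which `S` has finite
transcendence degree differ by an automorphism of `ℂ` -/
theorem exists_aut {R S : Type} [CommRing R] [CommRing S] [Algebra R S]
    (hRS : Function.Injective (algebraMap R S)) (hfin : Algebra.trdeg R S < ℵ₀) (φ ψ : S →+* ℂ)
    (hφ : Function.Injective φ) (hψ : Function.Injective ψ)
    (hcomp : φ.comp (algebraMap R S) = ψ.comp (algebraMap R S)) :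
    ∃ α : ℂ ≃+* ℂ, ∀ t, α (φ t) = ψ t := by
  have hnS : Nontrivial S := φ.domain_nontrivial
  have hnR : Nontrivial R := (algebraMap R S).domain_nontrivial
  let j : Algebra R ℂ := (φ.comp (algebraMap R S)).toAlgebra
  have fRS : FaithfulSMul R S := (faithfulSMul_iff_algebraMap_injective R S).2 hRS
  have h1 : Algebra.trdeg R S + @Algebra.trdeg S ℂ _ _ φ.toAlgebra = Algebra.trdeg R ℂ := by
    let i1 : Algebra S ℂ := φ.toAlgebra
    have f1 : FaithfulSMul S ℂ := (faithfulSMul_iff_algebraMap_injective S ℂ).2 hφ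
    have t1 : IsScalarTower R S ℂ := IsScalarTower.of_algebraMap_eq (fun x => rfl)
    exact trdeg_add_eq R S
  have h2 : Algebra.trdeg R S + @Algebra.trdeg S ℂ _ _ ψ.toAlgebra = Algebra.trdeg R ℂ := by
    let i1 : Algebra S ℂ := ψ.toAlgebra
    have f1 : FaithfulSMul S ℂ := (faithfulSMul_iff_algebraMap_injective S ℂ).2 hψ
    have t1 : IsScalarTower R S ℂ := IsScalarTower.of_algebraMap_eq (fun x => by
      change φ.comp (algebraMap R S) x = ψ (algebraMap R S x)
      rw [hcomp]; rfl)
    exact trdeg_add_eq R S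
  have h3 : @Algebra.trdeg S ℂ _ _ φ.toAlgebra = @Algebra.trdeg S ℂ _ _ ψ.toAlgebra :=
    Cardinal.eq_of_add_eq_add_left (h1.trans h2.symm) hfin
  exact @exists_ringEquiv S ℂ ℂ _ _ _ _ _ φ.toAlgebra ψ.toAlgebra
    ((@faithfulSMul_iff_algebraMap_injective S ℂ _ _ φ.toAlgebra).2 hφ)
    ((@faithfulSMul_iff_algebraMap_injective S ℂ _ _ ψ.toAlgebra).2 hψ) h3

end Pool.Agent.AHC
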