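import Mathlib
import Pool.Agent.AHC.Ext

/-!
# Algebraic closures of subfields of `ℂ` and moving transcendental elements
-/

namespace Pool.Agent.AHC

open Cardinal

/-- the matroid of algebraic independence over `ℚ` in `ℂ` -/
noncomputable abbrev MC : Matroid ℂ := AlgebraicIndependent.matroid ℚ ℂ

/-- the complex numbers which are algebraic over the field generated by `S` -/
def cl (S : Set ℂ) : Set ℂ := {z | IsAlgebraic (Algebra.adjoin ℚ S) z}

theorem closure_eq (S : Set ℂ) : MC.closure S = cl S := by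
  rw [AlgebraicIndependent.matroid_closure_eq]
  rfl

theorem subset_cl (S : Set ℂ) : S ⊆ cl S := by
  rw [← closure_eq]
  exact MC.subset_closure S (by simp)

theorem cl_mono {S T : Set ℂ} (h : S ⊆ T) : cl S ⊆ cl T := by
  rw [← closure_eq, ← closure_eq]
  exact MC.closure_subset_closure h

theorem cl_cl (S : Set ℂ) : cl (cl S) = cl S := by
  rw [← closure_eq, ← closure_eq, MC.closure_closure]

theorem cl_subset_iff {S T : Set ℂ} : cl S ⊆ cl T ↔ S ⊆ cl T :=
  ⟨fun h => (subset_cl S).trans h, fun h => by rw [← cl_cl T]; exact cl_mono h⟩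

theorem cl_union_cl_left (S T : Set ℂ) : cl (cl S ∪ T) = cl (S ∪ T) := by
  rw [← closure_eq, ← closure_eq, ← closure_eq, MC.closure_union_closure_left_eq]

theorem cl_union_cl_right (S T : Set ℂ) : cl (S ∪ cl T) = cl (S ∪ T) := by
  rw [Set.union_comm, cl_union_cl_left, Set.union_comm]

/-- exchange -/
theorem cl_exchange {S : Set ℂ} {a b : ℂ} (h : a ∈ cl (insert b S)) (h' : a ∉ cl S) :
    b ∈ cl (insert a S) := by
  rw [← closure_eq] at *
  exact (Matroid.closure_exchange ⟨h, h'⟩).1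

theorem exists_finite_of_mem_cl {S : Set ℂ} {a : ℂ} (h : a ∈ cl S) :
    ∃ I ⊆ S, I.Finite ∧ MC.Indep I ∧ a ∈ cl I := by
  rw [← closure_eq] at h
  obtain ⟨I, h1, h2, h3, h4⟩ := Matroid.exists_mem_finite_closure_of_mem_closure h
  exact ⟨I, h1, h2, h3, by rwa [closure_eq] at h4⟩

/-- `cl S` as a subfield of `ℂ` -/
noncomputable def clF (S : Set ℂ) : IntermediateField ℚ ℂ :=
  ((Subalgebra.algebraicClosure (Algebra.adjoin ℚ S) ℂ).restrictScalars ℚ).toIntermediateField
    (fun _ hz => IsAlgebraic.inv hz)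

theorem mem_clF {S : Set ℂ} {z : ℂ} : z ∈ clF S ↔ z ∈ cl S := Iff.rfl

theorem clF_inv_mem {S : Set ℂ} {z : ℂ} (h : z ∈ clF S) : z⁻¹ ∈ clF S := (clF S).inv_mem h

theorem clF_mono {S T : Set ℂ} (h : S ⊆ T) : clF S ≤ clF T := fun _ hz => cl_mono h hz

/-- an element algebraic over `cl X` is in `cl X` -/
theorem mem_cl_of_isAlgebraic {X : Set ℂ} {z : ℂ} (h : IsAlgebraic (clF X) z) : z ∈ cl X := by
  rw [← cl_cl X]
  have h1 : Algebra.adjoin ℚ (cl X) = (clF X).toSubalgebra := by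
    have h2 : cl X = ((clF X).toSubalgebra : Set ℂ) := rfl
    rw [h2, Algebra.adjoin_eq]
  change IsAlgebraic (Algebra.adjoin ℚ (cl X)) z
  rw [h1]
  exact h

/-- ring automorphisms commute with `cl` -/
theorem map_mem_cl {S : Set ℂ} {z : ℂ} (σ : ℂ ≃+* ℂ) (h : z ∈ cl S) : σ z ∈ cl (σ '' S) := by
  let s : ℂ →ₐ[ℚ] ℂ := (σ : ℂ →+* ℂ).toRatAlgHom
  have hs : ∀ x, s x = σ x := fun _ => rfl
  have h1 : ∀ x ∈ Algebra.adjoin ℚ S, s x ∈ Algebra.adjoin ℚ (σ '' S) := by
    intro x hx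
    have h2 : s x ∈ (Algebra.adjoin ℚ S).map s := ⟨x, hx, rfl⟩
    rw [AlgHom.map_adjoin] at h2
    exact h2
  let f : Algebra.adjoin ℚ S →+* Algebra.adjoin ℚ (σ '' S) :=
    ((s.comp (Algebra.adjoin ℚ S).val).codRestrict (Algebra.adjoin ℚ (σ '' S))
      (fun x => h1 x.1 x.2) : Algebra.adjoin ℚ S →ₐ[ℚ] Algebra.adjoin ℚ (σ '' S))
  refine IsAlgebraic.ringHom_of_comp_eq (S := Algebra.adjoin ℚ (σ '' S)) f (σ : ℂ →+* ℂ) h ?_ ?_
  · intro x y hxy
    have h3 : σ x.1 = σ y.1 := congrArg Subtype.val hxy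
    exact Subtype.ext (σ.injective h3)
  · rfl

theorem image_cl (σ : ℂ ≃+* ℂ) (S : Set ℂ) : σ '' cl S = cl (σ '' S) := by
  apply Set.Subset.antisymm
  · rintro _ ⟨z, hz, rfl⟩
    exact map_mem_cl σ hz
  · intro z hz
    refine ⟨σ.symm z, ?_, σ.apply_symm_apply z⟩
    have h := map_mem_cl σ.symm hz
    rwa [← Set.image_comp, show (σ.symm : ℂ → ℂ) ∘ σ = id from funext fun x => σ.symm_apply_apply x,
      Set.image_id] at h

/-- an element outside `cl X` can be moved to any other element outside `cl X` by an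
automorphism of `ℂ` which fixes `cl X` -/
theorem exists_move {X : Set ℂ} {a b : ℂ} (ha : a ∉ cl X) (hb : b ∉ cl X) :
    ∃ α : ℂ ≃+* ℂ, (∀ z ∈ cl X, α z = z) ∧ α a = b := by
  have key : ∀ c : ℂ, c ∉ cl X → Function.Injective
      (Polynomial.aeval c : Polynomial (clF X) →ₐ[clF X] ℂ) := by
    intro c hc
    rw [← transcendental_iff_injective]
    intro h
    exact hc (mem_cl_of_isAlgebraic h)
  obtain ⟨α, hα⟩ := exists_aut (R := clF X) (S := Polynomial (clF X)) Polynomial.C_injective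
    (by rw [Polynomial.trdeg_of_isDomain]; exact Cardinal.one_lt_aleph0)
    (Polynomial.aeval a : Polynomial (clF X) →ₐ[clF X] ℂ).toRingHom
    (Polynomial.aeval b : Polynomial (clF X) →ₐ[clF X] ℂ).toRingHom (key a ha) (key b hb) (by
      ext x
      · simp)
  refine ⟨α, fun z hz => ?_, ?_⟩
  · have h := hα (Polynomial.C ⟨z, hz⟩)
    simpa using h
  · have h := hα Polynomial.X
    simpa using h

end Pool.Agent.AHC
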