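import Mathlib
import Pool.Agent.AHC.Cl

/-!
# Linear disjointness over the algebraic numbers
-/

namespace Pool.Agent.AHC

/-- an element of `cl B` which is not algebraic is moved by an automorphism fixing `cl X` and
preserving `cl B`, if `B` is independent over `X` -/
theorem exists_stab_move {X B : Set ℂ} (hB : ∀ b ∈ B, b ∉ cl (X ∪ (B \ {b}))) {m : ℂ}
    (hm : m ∈ cl B) (hm0 : m ∉ cl ∅) :
    ∃ γ : ℂ ≃+* ℂ, (∀ z ∈ cl X, γ z = z) ∧ (∀ z ∈ cl B, γ z ∈ cl B) ∧ γ m ≠ m := by
  have key : ∀ I : Finset ℂ, (I : Set ℂ) ⊆ B → m ∈ cl I →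
      ∃ J : Set ℂ, J ⊆ B ∧ ∃ b ∈ J, m ∈ cl J ∧ m ∉ cl (J \ {b}) := by
    intro I
    induction I using Finset.strongInduction with
    | H I ih =>
      intro hI hmI
      by_cases h : ∃ b ∈ I, m ∈ cl ((I : Set ℂ) \ {b})
      · obtain ⟨b, hb, hmb⟩ := h
        refine ih (I.erase b) (Finset.erase_ssubset hb) ?_ ?_
        · rw [Finset.coe_erase]
          exact Set.sdiff_subset.trans hI
        · rw [Finset.coe_erase]
          exact hmb
      · push Not at h
        have hne : I.Nonempty := by
          rw [Finset.nonempty_iff_ne_empty]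
          rintro rfl
          rw [Finset.coe_empty] at hmI
          exact hm0 hmI
        obtain ⟨b, hb⟩ := hne
        exact ⟨I, hI, b, hb, hmI, h b hb⟩
  obtain ⟨I, hIB, hIf, -, hmI⟩ := exists_finite_of_mem_cl hm
  obtain ⟨J, hJ, b, hb, h1, h2⟩ := key hIf.toFinset (by simpa using hIB) (by simpa using hmI)
  have h3 : insert b (J \ {b}) = J := by
    rw [Set.insert_sdiff_singleton, Set.insert_eq_of_mem hb]
  have h4 : b ∈ cl (insert m (J \ {b})) := cl_exchange (by rwa [h3]) h2
  have hJB : J \ {b} ⊆ B \ {b} := Set.sdiff_subset_sdiff_left hJ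
  have h5 : m ∉ cl (X ∪ (B \ {b})) := by
    intro h
    refine hB b (hJ hb) ?_
    refine (cl_subset_iff.2 ?_) h4
    rintro z (rfl | hz)
    · exact h
    · exact subset_cl _ (Or.inr (hJB hz))
  have h6 : m + 1 ∉ cl (X ∪ (B \ {b})) := by
    intro h
    have h' : m + 1 - 1 ∈ clF (X ∪ (B \ {b})) := (clF _).sub_mem h (clF _).one_mem
    rw [add_sub_cancel_right] at h'
    exact h5 h'
  obtain ⟨γ, hγ, hγm⟩ := exists_move h5 h6
  have hfix : ∀ z ∈ B \ {b}, γ z = z := fun z hz => hγ z (subset_cl _ (Or.inr hz))
  refine ⟨γ, fun z hz => hγ z (cl_mono Set.subset_union_left hz), fun z hz => ?_, ?_⟩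
  · have h7 : z ∈ cl (insert m (B \ {b})) := by
      refine (cl_subset_iff.2 ?_) hz
      intro y hy
      by_cases hyb : y = b
      · rw [hyb]
        exact cl_mono (Set.insert_subset_insert hJB) h4
      · exact subset_cl _ (Or.inr ⟨hy, hyb⟩)
    have h8 := map_mem_cl γ h7
    refine (cl_subset_iff.2 ?_) h8
    rintro _ ⟨y, (rfl | hy), rfl⟩
    · rw [hγm]
      exact (clF B).add_mem hm (clF B).one_mem
    · rw [hfix y hy]
      exact subset_cl _ hy.1
  · rw [hγm]
    simp

/-- linear disjointness of `cl X` and `cl B` over the algebraic numbers, if `B` is independent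
over `X` -/
theorem linDisj {X B : Set ℂ} (hB : ∀ b ∈ B, b ∉ cl (X ∪ (B \ {b}))) {ι : Type} (d : ι → ℂ)
    (hd : ∀ i, d i ∈ cl X) (hli : LinearIndependent (clF ∅) d) (s : Finset ι) :
    ∀ m : ι → ℂ, (∀ i, m i ∈ cl B) → ∑ i ∈ s, d i * m i = 0 → ∀ i ∈ s, m i = 0 := by
  classical
  induction s using Finset.induction_on with
  | empty => intro m _ _ i hi; simp at hi
  | insert j s hj ih =>
    intro m hm h
    by_cases hmj : m j = 0
    · rw [Finset.sum_insert hj, hmj, mul_zero, zero_add] at h
      intro i hi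
      rcases Finset.mem_insert.1 hi with rfl | hi
      · exact hmj
      · exact ih m hm h i hi
    · exfalso
      let m' : ι → ℂ := fun i => m i * (m j)⁻¹
      have hm' : ∀ i, m' i ∈ cl B := fun i => (clF B).mul_mem (hm i) (clF_inv_mem (hm j))
      have hm'j : m' j = 1 := mul_inv_cancel₀ hmj
      have h' : ∑ i ∈ insert j s, d i * m' i = 0 := by
        have h1 : ∑ i ∈ insert j s, d i * m' i = (∑ i ∈ insert j s, d i * m i) * (m j)⁻¹ := by
          rw [Finset.sum_mul]
          exact Finset.sum_congr rfl fun i _ => (mul_assoc _ _ _).symm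
        rw [h1, h, zero_mul]
      have hk : ∀ i ∈ s, m' i ∈ cl ∅ := by
        intro i hi
        by_contra hcon
        obtain ⟨γ, h1, h2, h3⟩ := exists_stab_move hB (hm' i) hcon
        have h4 : ∑ i ∈ s, d i * (γ (m' i) - m' i) = 0 := by
          have h5 := congrArg γ h'
          rw [map_sum, map_zero] at h5
          have h6 : ∑ i ∈ insert j s, d i * (γ (m' i) - m' i) = 0 := by
            have : ∑ i ∈ insert j s, d i * (γ (m' i) - m' i) =
                ∑ i ∈ insert j s, γ (d i * m' i) - ∑ i ∈ insert j s, d i * m' i := by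
              rw [← Finset.sum_sub_distrib]
              refine Finset.sum_congr rfl fun i _ => ?_
              rw [map_mul γ (d i) (m' i), h1 _ (hd i)]
              ring
            rw [this, h5, h', sub_zero]
          rw [Finset.sum_insert hj, hm'j, map_one, sub_self, mul_zero, zero_add] at h6
          exact h6
        have h7 := ih (fun i => γ (m' i) - m' i)
          (fun i => (clF B).sub_mem (h2 _ (hm' i)) (hm' i)) h4 i hi
        exact h3 (sub_eq_zero.1 h7)
      have hk' : ∀ i ∈ insert j s, m' i ∈ clF ∅ := by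
        intro i hi
        rcases Finset.mem_insert.1 hi with rfl | hi
        · rw [hm'j]
          exact (clF ∅).one_mem
        · exact hk i hi
      rw [linearIndependent_iff'] at hli
      let g : ι → clF ∅ := fun i => if hi : i ∈ insert j s then ⟨m' i, hk' i hi⟩ else 0
      have h8 : ∑ i ∈ insert j s, g i • d i = 0 := by
        rw [← h']
        refine Finset.sum_congr rfl fun i hi => ?_
        simp only [g, dif_pos hi]
        rw [IntermediateField.smul_def, smul_eq_mul, mul_comm]
      have h9 := hli (insert j s) g h8 j (Finset.mem_insert_self j s)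
      simp only [g, dif_pos (Finset.mem_insert_self j s)] at h9
      have h10 := congrArg Subtype.val h9
      simp only [hm'j] at h10
      exact one_ne_zero h10

end Pool.Agent.AHC
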