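import Mathlib
import Pool.Agent.AHC.LD

/-!
# Gluing an automorphism of `ℂ` with the identity of an independent subfield
-/

namespace Pool.Agent.AHC

open TensorProduct

/-- `B` is independent over `X` -/
def IndOver (X B : Set ℂ) : Prop := ∀ b ∈ B, b ∉ cl (X ∪ (B \ {b}))

/-- `cl X` as a subalgebra over the algebraic numbers -/
noncomputable def clK (X : Set ℂ) : Subalgebra (clF ∅) ℂ where
  carrier := cl X
  mul_mem' := fun ha hb => (clF X).mul_mem ha hb
  one_mem' := (clF X).one_mem
  add_mem' := fun ha hb => (clF X).add_mem ha hb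
  zero_mem' := (clF X).zero_mem
  algebraMap_mem' := fun r => clF_mono (Set.empty_subset X) r.2

theorem mem_clK {X : Set ℂ} {z : ℂ} : z ∈ clK X ↔ z ∈ cl X := Iff.rfl

/-- injectivity of the map from the tensor product -/
theorem productMap_injective {X B : Set ℂ} (hB : IndOver X B) {P : Type} [CommRing P]
    [Algebra (clF ∅) P] (g : P →ₐ[clF ∅] ℂ) (hg : Function.Injective g)
    (hgB : ∀ p, g p ∈ cl B) :
    Function.Injective (Algebra.TensorProduct.productMap (clK X).val g) := by
  rw [injective_iff_map_eq_zero]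
  intro x hx
  let b := Module.Basis.ofVectorSpace (clF ∅) (clK X)
  let e := TensorProduct.equivFinsuppOfBasisLeft (N := P) b
  obtain ⟨y, rfl⟩ := e.symm.surjective x
  have h1 : e.symm y = y.sum fun i p => b i ⊗ₜ[clF ∅] p := by
    simp only [e]
    exact TensorProduct.equivFinsuppOfBasisLeft_symm_apply b y
  rw [h1, Finsupp.sum, map_sum] at hx
  have h2 : ∑ i ∈ y.support, (b i : ℂ) * g (y i) = 0 := by
    rw [← hx]
    refine Finset.sum_congr rfl fun i _ => ?_
    rw [Algebra.TensorProduct.productMap_apply_tmul]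
    rfl
  have hli : LinearIndependent (clF ∅) (fun i => (b i : ℂ)) := by
    have h3 := b.linearIndependent
    exact h3.map' (clK X).val.toLinearMap (LinearMap.ker_eq_bot.2 Subtype.val_injective)
  have h4 := linDisj hB (fun i => (b i : ℂ)) (fun i => (b i).2) hli y.support
    (fun i => g (y i)) (fun i => hgB _) h2
  have h5 : y = 0 := by
    ext i
    by_cases hi : i ∈ y.support
    · have := h4 i hi
      have h6 : g (y i) = g 0 := by rw [this, map_zero]
      exact hg h6
    · exact Finsupp.notMem_support_iff.1 hi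
  rw [h5, map_zero]

/-- **gluing**: if a finite set `A` and its image under an automorphism `Ψ` over the algebraic
numbers are both algebraic over sets independent over `X`, then `Ψ` agrees on `A` with an
automorphism which fixes `cl X` -/
theorem glue {X B B' : Set ℂ} (hB : IndOver X B) (hB' : IndOver X B') (Ψ : ℂ ≃+* ℂ)
    (hΨ : ∀ z ∈ cl ∅, Ψ z = z) {A : Set ℂ} (hAf : A.Finite) (hA : A ⊆ cl B)
    (hA' : Ψ '' A ⊆ cl B') :
    ∃ α : ℂ ≃+* ℂ, (∀ z ∈ cl X, α z = z) ∧ ∀ a ∈ A, α a = Ψ a := by
  let P : Subalgebra (clF ∅) ℂ := Algebra.adjoin (clF ∅) A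
  have hft : Algebra.FiniteType (clF ∅) P := by
    rw [← Subalgebra.fg_iff_finiteType]
    exact ⟨hAf.toFinset, by rw [Set.Finite.coe_toFinset]⟩
  let Ψ' : ℂ →ₐ[clF ∅] ℂ := AlgHom.mk (Ψ : ℂ →+* ℂ) (fun r => hΨ r.1 r.2)
  have hΨ' : ∀ z, Ψ' z = Ψ z := fun _ => rfl
  have hP : ∀ B : Set ℂ, ∀ A : Set ℂ, A ⊆ cl B → Algebra.adjoin (clF ∅) A ≤ clK B :=
    fun B A h => Algebra.adjoin_le h
  let φ := Algebra.TensorProduct.productMap (clK X).val P.val
  let ψ := Algebra.TensorProduct.productMap (clK X).val (Ψ'.comp P.val)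
  have hφ : Function.Injective φ :=
    productMap_injective hB P.val Subtype.val_injective (fun p => hP B A hA p.2)
  have hψ : Function.Injective ψ := by
    refine productMap_injective hB' (Ψ'.comp P.val) ?_ (fun p => ?_)
    · intro x y hxy
      exact Subtype.ext (Ψ.injective hxy)
    · have h1 : Ψ' p.1 ∈ P.map Ψ' := ⟨p.1, p.2, rfl⟩
      simp only [P, AlgHom.map_adjoin] at h1
      exact hP B' _ hA' h1
  obtain ⟨α, hα⟩ := exists_aut (R := clK X) (S := clK X ⊗[clF ∅] P)
    (by
      intro x y hxy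
      have h1 : φ (x ⊗ₜ 1) = φ (y ⊗ₜ 1) := congrArg φ hxy
      simp only [φ, Algebra.TensorProduct.productMap_apply_tmul, map_one, mul_one] at h1
      exact Subtype.ext h1)
    trdeg_lt_aleph0_of_finiteType φ.toRingHom ψ.toRingHom hφ hψ (by
      ext x
      change φ (x ⊗ₜ 1) = ψ (x ⊗ₜ 1)
      simp only [φ, ψ, Algebra.TensorProduct.productMap_apply_tmul, map_one])
  refine ⟨α, fun z hz => ?_, fun a ha => ?_⟩
  · have h := hα ((⟨z, hz⟩ : clK X) ⊗ₜ 1)
    change α (φ _) = ψ _ at h
    simp only [φ, ψ, Algebra.TensorProduct.productMap_apply_tmul, map_one, mul_one] at h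
    exact h
  · have h := hα ((1 : clK X) ⊗ₜ (⟨a, Algebra.subset_adjoin ha⟩ : P))
    change α (φ _) = ψ _ at h
    simp only [φ, ψ, Algebra.TensorProduct.productMap_apply_tmul, map_one, one_mul] at h
    exact h

end Pool.Agent.AHC
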