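import Mathlib
import Pool.Agent.AHC.Glue

/-!
# Independent families over a set and moving them
-/

namespace Pool.Agent.AHC

/-- the family `b` is independent over `X` (sequential form) -/
def SeqInd (X : Set ℂ) {n : ℕ} (b : Fin n → ℂ) : Prop :=
  ∀ i, b i ∉ cl (X ∪ b '' {j | j < i})

theorem SeqInd.mono {X Y : Set ℂ} (h : Y ⊆ X) {n : ℕ} {b : Fin n → ℂ} (hb : SeqInd X b) :
    SeqInd Y b := fun i hi => hb i (cl_mono (Set.union_subset_union_left _ h) hi)

theorem image_castSucc {n : ℕ} (b : Fin (n + 1) → ℂ) (i : Fin n) :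
    (fun j : Fin n => b j.castSucc) '' {j | j < i} = b '' {j | j < i.castSucc} := by
  ext z
  constructor
  · rintro ⟨j, hj, rfl⟩
    exact ⟨j.castSucc, Fin.castSucc_lt_castSucc_iff.2 hj, rfl⟩
  · rintro ⟨j, hj, rfl⟩
    have hj' : (j : ℕ) < n := lt_of_lt_of_le (Fin.lt_def.1 hj) (by simp)
    refine ⟨⟨j, hj'⟩, ?_, rfl⟩
    exact Fin.lt_def.2 (by simpa using Fin.lt_def.1 hj)

theorem image_last {n : ℕ} (b : Fin (n + 1) → ℂ) :
    b '' {j | j < Fin.last n} = Set.range fun j : Fin n => b j.castSucc := by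
  ext z
  constructor
  · rintro ⟨j, hj, rfl⟩
    exact ⟨⟨j, Fin.lt_def.1 hj⟩, rfl⟩
  · rintro ⟨j, rfl⟩
    exact ⟨j.castSucc, Fin.castSucc_lt_last j, rfl⟩

theorem range_succ {n : ℕ} (b : Fin (n + 1) → ℂ) :
    Set.range b = insert (b (Fin.last n)) (Set.range fun j : Fin n => b j.castSucc) := by
  ext z
  constructor
  · rintro ⟨j, rfl⟩
    rcases Fin.eq_castSucc_or_eq_last j with ⟨i, rfl⟩ | rfl
    · exact Or.inr ⟨i, rfl⟩
    · exact Or.inl rfl
  · rintro (rfl | ⟨j, rfl⟩)
    · exact ⟨_, rfl⟩
    · exact ⟨_, rfl⟩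

theorem SeqInd.init {X : Set ℂ} {n : ℕ} {b : Fin (n + 1) → ℂ} (hb : SeqInd X b) :
    SeqInd X (fun j : Fin n => b j.castSucc) := by
  intro i hi
  rw [image_castSucc] at hi
  exact hb _ hi

theorem SeqInd.last {X : Set ℂ} {n : ℕ} {b : Fin (n + 1) → ℂ} (hb : SeqInd X b) :
    b (Fin.last n) ∉ cl (X ∪ Set.range fun j : Fin n => b j.castSucc) := by
  have := hb (Fin.last n)
  rwa [image_last] at this

theorem SeqInd.snoc {X : Set ℂ} {n : ℕ} {b : Fin (n + 1) → ℂ}
    (h1 : SeqInd X (fun j : Fin n => b j.castSucc))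
    (h2 : b (Fin.last n) ∉ cl (X ∪ Set.range fun j : Fin n => b j.castSucc)) : SeqInd X b := by
  intro i
  rcases Fin.eq_castSucc_or_eq_last i with ⟨i, rfl⟩ | rfl
  · rw [← image_castSucc]
    exact h1 i
  · rw [image_last]
    exact h2

/-- moving an independent family to another one -/
theorem exists_move_seq {X : Set ℂ} : ∀ {n : ℕ} (b c : Fin n → ℂ), SeqInd X b → SeqInd X c →
    ∃ α : ℂ ≃+* ℂ, (∀ z ∈ cl X, α z = z) ∧ ∀ i, α (b i) = c i
  | 0, _, _, _, _ => ⟨RingEquiv.refl ℂ, fun _ _ => rfl, fun i => i.elim0⟩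
  | n + 1, b, c, hb, hc => by
    obtain ⟨α, h1, h2⟩ := exists_move_seq (fun j : Fin n => b j.castSucc)
      (fun j : Fin n => c j.castSucc) hb.init hc.init
    have himg : α '' (X ∪ Set.range fun j : Fin n => b j.castSucc) =
        X ∪ Set.range fun j : Fin n => c j.castSucc := by
      rw [Set.image_union, ← Set.range_comp]
      congr 1
      · ext z
        constructor
        · rintro ⟨y, hy, rfl⟩
          rw [h1 y (subset_cl _ hy)]
          exact hy
        · intro hz
          exact ⟨z, hz, h1 z (subset_cl _ hz)⟩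
      · congr 1
        funext j
        exact h2 j
    have h3 : α (b (Fin.last n)) ∉ cl (X ∪ Set.range fun j : Fin n => c j.castSucc) := by
      intro h
      have h4 := map_mem_cl α.symm h
      rw [← himg, ← Set.image_comp,
        show (α.symm : ℂ → ℂ) ∘ α = id from funext fun x => α.symm_apply_apply x,
        Set.image_id, α.symm_apply_apply] at h4
      exact hb.last h4
    obtain ⟨β, h5, h6⟩ := exists_move h3 hc.last
    refine ⟨α.trans β, fun z hz => ?_, fun i => ?_⟩
    · rw [RingEquiv.trans_apply, h1 z hz]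
      exact h5 z (cl_mono Set.subset_union_left hz)
    · rw [RingEquiv.trans_apply]
      rcases Fin.eq_castSucc_or_eq_last i with ⟨i, rfl⟩ | rfl
      · have h7 : α (b i.castSucc) = c i.castSucc := h2 i
        rw [h7]
        exact h5 _ (subset_cl _ (Or.inr ⟨i, rfl⟩))
      · exact h6

theorem IndOver.insert {X B : Set ℂ} (hB : IndOver X B) {v : ℂ} (hv : v ∉ cl (X ∪ B)) :
    IndOver X (insert v B) := by
  intro b hb h
  by_cases hbv : b = v
  · subst hbv
    refine hv (cl_mono ?_ h)
    refine Set.union_subset_union_right _ ?_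
    rintro z ⟨hz1 | hz1, hz2⟩
    · exact absurd hz1 hz2
    · exact hz1
  · have hbB : b ∈ B := hb.resolve_left hbv
    have h1 : X ∪ (Insert.insert v B \ {b}) = Insert.insert v (X ∪ (B \ {b})) := by
      ext z
      simp only [Set.mem_union, Set.mem_sdiff, Set.mem_insert_iff, Set.mem_singleton_iff]
      constructor
      · rintro (h | ⟨h | h, h'⟩)
        · exact Or.inr (Or.inl h)
        · exact Or.inl h
        · exact Or.inr (Or.inr ⟨h, h'⟩)
      · rintro (h | h | ⟨h, h'⟩)
        · exact Or.inr ⟨Or.inl h, fun h2 => hbv (by rw [← h, h2])⟩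
        · exact Or.inl h
        · exact Or.inr ⟨Or.inr h, h'⟩
    rw [h1] at h
    have h2 := cl_exchange h (hB b hbB)
    refine hv (cl_mono ?_ h2)
    rintro z (rfl | hz | hz)
    · exact Or.inr hbB
    · exact Or.inl hz
    · exact Or.inr hz.1

theorem SeqInd.indOver {X : Set ℂ} : ∀ {n : ℕ} {b : Fin n → ℂ}, SeqInd X b →
    IndOver X (Set.range b)
  | 0, b, _ => by
    rintro z ⟨i, rfl⟩
    exact i.elim0
  | n + 1, b, hb => by
    rw [range_succ]
    exact IndOver.insert hb.init.indOver hb.last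

/-- `SeqInd` is preserved by automorphisms -/
theorem SeqInd.map {X : Set ℂ} {n : ℕ} {b : Fin n → ℂ} (hb : SeqInd X b) (α : ℂ ≃+* ℂ) :
    SeqInd (α '' X) (fun i => α (b i)) := by
  intro i h
  have h4 := map_mem_cl α.symm h
  have h5 : (fun i => α (b i)) '' {j | j < i} = α '' (b '' {j | j < i}) := by
    rw [← Set.image_comp]
    rfl
  rw [h5, ← Set.image_union, ← Set.image_comp,
    show (α.symm : ℂ → ℂ) ∘ α = id from funext fun x => α.symm_apply_apply x,
    Set.image_id, α.symm_apply_apply] at h4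
  exact hb i h4

/-- a finite set has a basis over any set -/
theorem exists_basis (X : Set ℂ) {A : Set ℂ} (hA : A.Finite) :
    ∃ (n : ℕ) (b : Fin n → ℂ), SeqInd X b ∧ Set.range b ⊆ A ∧ A ⊆ cl (X ∪ Set.range b) := by
  induction A, hA using Set.Finite.induction_on with
  | empty =>
    exact ⟨0, Fin.elim0, fun i => i.elim0, by rintro z ⟨i, rfl⟩; exact i.elim0,
      Set.empty_subset _⟩
  | @insert a A _ _ ih =>
    obtain ⟨n, b, h1, h2, h3⟩ := ih
    by_cases ha : a ∈ cl (X ∪ Set.range b)
    · refine ⟨n, b, h1, h2.trans (Set.subset_insert _ _), ?_⟩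
      rintro z (rfl | hz)
      · exact ha
      · exact h3 hz
    · refine ⟨n + 1, Fin.snoc b a, ?_, ?_, ?_⟩
      · apply SeqInd.snoc
        · simpa using h1
        · simpa using ha
      · rw [range_succ]
        rintro z (rfl | ⟨i, rfl⟩)
        · left; simp
        · right
          have : (Fin.snoc b a : Fin (n + 1) → ℂ) i.castSucc = b i := by simp
          change (Fin.snoc b a : Fin (n + 1) → ℂ) i.castSucc ∈ A
          rw [this]
          exact h2 ⟨i, rfl⟩
      · rw [range_succ]
        have h4 : (Set.range fun j : Fin n => (Fin.snoc b a : Fin (n + 1) → ℂ) j.castSucc) =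
            Set.range b := by
          congr 1
          funext j
          simp
        rw [h4]
        rintro z (rfl | hz)
        · refine subset_cl _ (Or.inr (Or.inl ?_))
          simp
        · exact cl_mono (Set.union_subset_union_right _ (Set.subset_insert _ _)) (h3 hz)

end Pool.Agent.AHC
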