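import Mathlib
import Pool.Agent.AHC.Move

/-!
# Independent families over independent sets: matroid form and transfer
-/

namespace Pool.Agent.AHC

/-- a family independent over an independent set `X` -/
theorem SeqInd.indep {X : Set ℂ} (hX : MC.Indep X) : ∀ {n : ℕ} {b : Fin n → ℂ}, SeqInd X b →
    MC.Indep (X ∪ Set.range b) ∧ Disjoint X (Set.range b)
  | 0, b, _ => by
    have h : Set.range b = ∅ := Set.range_eq_empty b
    rw [h]
    simpa using hX
  | n + 1, b, hb => by
    obtain ⟨h1, h2⟩ := hb.init.indep hX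
    have h3 := hb.last
    rw [range_succ]
    constructor
    · rw [Set.union_insert]
      rw [← closure_eq] at h3
      exact (h1.notMem_closure_iff.1 h3).1
    · rw [Set.disjoint_insert_right]
      exact ⟨fun h => h3 (subset_cl _ (Or.inl h)), h2⟩

/-- a sequence is independent over `X` if together with `X` it is independent -/
theorem SeqInd.of_indep {X : Set ℂ} {n : ℕ} {b : Fin n → ℂ} (hb : Function.Injective b)
    (h : MC.Indep (X ∪ Set.range b)) (hd : Disjoint X (Set.range b)) : SeqInd X b := by
  intro i hi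
  have h1 := h.notMem_closure_sdiff_of_mem (Or.inr ⟨i, rfl⟩ : b i ∈ X ∪ Set.range b)
  rw [closure_eq] at h1
  refine h1 (cl_mono ?_ hi)
  rintro z (hz | ⟨j, hj, rfl⟩)
  · exact ⟨Or.inl hz, fun h2 => Set.disjoint_left.1 hd hz ⟨i, h2.symm⟩⟩
  · refine ⟨Or.inr ⟨j, rfl⟩, fun h2 => ?_⟩
    have h3 : j = i := hb h2
    exact (ne_of_lt hj) h3

theorem SeqInd.injective {X : Set ℂ} {n : ℕ} {b : Fin n → ℂ} (hb : SeqInd X b) :
    Function.Injective b := by
  intro i j hij
  by_contra hne
  rcases lt_or_gt_of_ne hne with h | h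
  · exact hb j (subset_cl _ (Or.inr ⟨i, h, hij⟩))
  · exact hb i (subset_cl _ (Or.inr ⟨j, h, hij.symm⟩))

/-- **transfer**: if `W` is independent over the independent set `X`, then every independent
subset of `cl W` is independent over `X` -/
theorem indep_transfer {X W C : Set ℂ} (h : MC.Indep (X ∪ W)) (hd : Disjoint X W)
    (hC : C ⊆ cl W) (hCi : MC.Indep C) : MC.Indep (X ∪ C) ∧ Disjoint X C := by
  have hW : MC.Indep W := h.subset Set.subset_union_right
  have hWb : MC.IsBasis W (MC.closure W) := hW.isBasis_closure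
  have hXc : (MC.contract (MC.closure W)).Indep X := by
    rw [hWb.contract_indep_iff]
    refine ⟨h, ?_⟩
    rw [Set.disjoint_right]
    intro x hx hxW
    have h1 := h.notMem_closure_sdiff_of_mem (Or.inl hx : x ∈ X ∪ W)
    refine h1 (MC.closure_subset_closure ?_ hxW)
    intro z hz
    exact ⟨Or.inr hz, fun h2 => Set.disjoint_left.1 hd hx (by rw [← h2]; exact hz)⟩
  obtain ⟨C', hC', hCC'⟩ := hCi.subset_isBasis_of_subset (X := MC.closure W)
    (by rw [closure_eq]; exact hC)
  rw [hC'.contract_indep_iff] at hXc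
  refine ⟨hXc.1.subset (Set.union_subset_union_right _ hCC'), ?_⟩
  exact (hXc.2.mono_left (hCC'.trans hC'.subset)).symm

end Pool.Agent.AHC
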