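import Mathlib
import Pool.Agent.AHC.Indep

/-!
# Every automorphism over the algebraic numbers is a limit of products of five factors
-/

namespace Pool.Agent.AHC

/-- complex conjugation as a ring automorphism -/
noncomputable def cc : ℂ ≃+* ℂ := Complex.conjAe.toRingEquiv

@[simp] theorem cc_apply (z : ℂ) : cc z = (starRingEnd ℂ) z := rfl

theorem cc_cc (z : ℂ) : cc (cc z) = z := by simp

/-- shifting an independent family by elements algebraic over `X` -/
theorem SeqInd.shift {X : Set ℂ} {n : ℕ} {f : Fin n → ℂ} (hf : SeqInd X f) {g : Fin n → ℂ}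
    (hg : ∀ i, g i ∈ cl X) : SeqInd X (fun i => f i + g i) := by
  intro i hi
  refine hf i ?_
  have h1 : X ∪ (fun i => f i + g i) '' {j | j < i} ⊆ cl (X ∪ f '' {j | j < i}) := by
    rintro z (hz | ⟨j, hj, rfl⟩)
    · exact subset_cl _ (Or.inl hz)
    · exact (clF _).add_mem (subset_cl _ (Or.inr ⟨j, hj, rfl⟩))
        (cl_mono Set.subset_union_left (hg j))
  have h2 : f i + g i ∈ clF (X ∪ f '' {j | j < i}) := cl_subset_iff.2 h1 hi
  have h3 : g i ∈ clF (X ∪ f '' {j | j < i}) := cl_mono Set.subset_union_left (hg i)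
  have h4 := (clF _).sub_mem h2 h3
  rwa [add_sub_cancel_right] at h4

theorem exists_finite_sub {X B A : Set ℂ} (hA : A.Finite) (h : A ⊆ cl (X ∪ B)) :
    ∃ X₀ ⊆ X, X₀.Finite ∧ A ⊆ cl (X₀ ∪ B) := by
  induction A, hA using Set.Finite.induction_on with
  | empty => exact ⟨∅, Set.empty_subset _, Set.finite_empty, Set.empty_subset _⟩
  | @insert a A _ _ ih =>
    obtain ⟨X₀, h1, h2, h3⟩ := ih ((Set.subset_insert _ _).trans h)
    obtain ⟨I, hI, hIf, -, haI⟩ := exists_finite_of_mem_cl (h (Set.mem_insert a A))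
    refine ⟨X₀ ∪ (I ∩ X), Set.union_subset h1 Set.inter_subset_right,
      h2.union (hIf.subset Set.inter_subset_left), ?_⟩
    rintro z (rfl | hz)
    · refine cl_mono ?_ haI
      intro y hy
      rcases hI hy with h5 | h5
      · exact Or.inl (Or.inr ⟨hy, h5⟩)
      · exact Or.inr h5
    · refine cl_mono ?_ (h3 hz)
      exact Set.union_subset_union_left _ Set.subset_union_left

/-- families which are independent over `T` and over its conjugate -/
theorem exists_both {T : Set ℂ} (hd : Disjoint T (cc '' T)) (hI : MC.Indep (T ∪ cc '' T))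
    {T₀ : Set ℂ} (hT₀ : T₀ ⊆ T) (hinf : (T \ T₀).Infinite) (n : ℕ) :
    ∃ u : Fin n → ℂ, SeqInd T u ∧ SeqInd (cc '' T ∪ T₀) u := by
  let e : Fin n → ℂ := fun i => hinf.natEmbedding _ (i : ℕ)
  have he : ∀ i, e i ∈ T \ T₀ := fun i => (hinf.natEmbedding _ (i : ℕ)).2
  have hinj : Function.Injective e := by
    intro i j hij
    exact Fin.ext ((hinf.natEmbedding _).injective (Subtype.ext hij))
  have h1 : SeqInd T (fun i => cc (e i)) := by
    refine SeqInd.of_indep (fun i j hij => hinj (cc.injective hij)) (hI.subset ?_)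
      (hd.mono_right ?_)
    · refine Set.union_subset_union_right _ ?_
      rintro _ ⟨i, rfl⟩
      exact ⟨e i, (he i).1, rfl⟩
    · rintro _ ⟨i, rfl⟩
      exact ⟨e i, (he i).1, rfl⟩
  have h2 : SeqInd (cc '' T ∪ T₀) e := by
    refine SeqInd.of_indep hinj (hI.subset ?_) ?_
    · rintro z ((hz | hz) | ⟨i, rfl⟩)
      · exact Or.inr hz
      · exact Or.inl (hT₀ hz)
      · exact Or.inl (he i).1
    · rw [Set.disjoint_left]
      rintro z (hz | hz) ⟨i, rfl⟩
      · exact Set.disjoint_left.1 hd (he i).1 hz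
      · exact (he i).2 hz
  refine ⟨fun i => e i + cc (e i), ?_, ?_⟩
  · have := h1.shift (g := e) (fun i => subset_cl _ (he i).1)
    simpa only [add_comm] using this
  · exact h2.shift (fun i => subset_cl _ (Or.inl ⟨e i, (he i).1, rfl⟩))

/-- image of a closure under an automorphism fixing part of the generators -/
theorem image_cl_fix {X : Set ℂ} {n : ℕ} {b c : Fin n → ℂ} (α : ℂ ≃+* ℂ)
    (h1 : ∀ z ∈ X, α z = z) (h2 : ∀ i, α (b i) = c i) :
    α '' cl (X ∪ Set.range b) = cl (X ∪ Set.range c) := by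
  rw [image_cl, Set.image_union, ← Set.range_comp]
  congr 2
  · ext z
    constructor
    · rintro ⟨y, hy, rfl⟩
      rw [h1 y hy]
      exact hy
    · intro hz
      exact ⟨z, hz, h1 z hz⟩
  · congr 1
    funext j
    exact h2 j

/-- general position -/
theorem generic_position {T : Set ℂ} (hinf : T.Infinite) (hd : Disjoint T (cc '' T))
    (hI : MC.Indep (T ∪ cc '' T)) {A : Set ℂ} (hA : A.Finite) :
    ∃ (α β : ℂ ≃+* ℂ) (m : ℕ) (w : Fin m → ℂ), (∀ z ∈ cl T, α z = z) ∧
      (∀ z ∈ cl (cc '' T), β z = z) ∧ SeqInd T w ∧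
      (fun z => β (α z)) '' A ⊆ cl (Set.range w) := by
  obtain ⟨n, b, hb1, -, hb3⟩ := exists_basis T hA
  obtain ⟨T₀, hT₀, hT₀f, hAT₀⟩ := exists_finite_sub hA hb3
  obtain ⟨u, hu1, hu2⟩ := exists_both hd hI hT₀ (hinf.sdiff hT₀f) n
  obtain ⟨α, hα1, hα2⟩ := exists_move_seq b u hb1 hu1
  have h1 : α '' A ⊆ cl (T₀ ∪ Set.range u) := by
    rw [← image_cl_fix α (fun z hz => hα1 z (subset_cl _ (hT₀ hz))) hα2]
    exact Set.image_mono hAT₀
  have hX : MC.Indep (cc '' T ∪ T₀) := hI.subset (by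
    rintro z (hz | hz)
    · exact Or.inr hz
    · exact Or.inl (hT₀ hz))
  obtain ⟨h2, h3⟩ := hu2.indep hX
  obtain ⟨m, c, hc1, hc2, hc3⟩ := exists_basis ∅ (hA.image α)
  have hci : MC.Indep (Set.range c) := by
    have := (hc1.indep MC.empty_indep).1
    rwa [Set.empty_union] at this
  have hW : MC.Indep (cc '' T ∪ (T₀ ∪ Set.range u)) := by rwa [← Set.union_assoc]
  have hWd : Disjoint (cc '' T) (T₀ ∪ Set.range u) := by
    rw [Set.disjoint_union_right]
    exact ⟨(hd.mono_left hT₀).symm, h3.mono_left Set.subset_union_left⟩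
  obtain ⟨h4, h5⟩ := indep_transfer hW hWd (hc2.trans h1) hci
  have hc4 : SeqInd (cc '' T) c := SeqInd.of_indep hc1.injective h4 h5
  obtain ⟨w, hw1, hw2⟩ := exists_both hd hI (Set.empty_subset T)
    (by rw [Set.sdiff_empty]; exact hinf) m
  obtain ⟨β, hβ1, hβ2⟩ := exists_move_seq c w hc4 (hw2.mono Set.subset_union_left)
  refine ⟨α, β, m, w, hα1, hβ1, hw1, ?_⟩
  have h6 : (fun z => β (α z)) '' A = β '' (α '' A) := by
    rw [← Set.image_comp]
    rfl
  have h7 := image_cl_fix (X := ∅) β (fun z hz => hz.elim) hβ2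
  rw [h6]
  refine (Set.image_mono hc3).trans ?_
  rw [h7, Set.empty_union]

/-- an automorphism over the algebraic numbers agrees on any finite set with a product of five
automorphisms, each fixing `T` or its conjugate -/
theorem chain {T : Set ℂ} (hinf : T.Infinite) (hd : Disjoint T (cc '' T))
    (hI : MC.Indep (T ∪ cc '' T)) {A : Set ℂ} (hA : A.Finite) (σ : ℂ ≃+* ℂ)
    (hσ : ∀ z ∈ cl ∅, σ z = z) :
    ∃ α β γ α' β' : ℂ ≃+* ℂ, (∀ z ∈ cl T, α z = z) ∧ (∀ z ∈ cl (cc '' T), β z = z) ∧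
      (∀ z ∈ cl T, γ z = z) ∧ (∀ z ∈ cl T, α' z = z) ∧ (∀ z ∈ cl (cc '' T), β' z = z) ∧
      ∀ a ∈ A, α'.symm (β'.symm (γ (β (α a)))) = σ a := by
  obtain ⟨α, β, m, w, h1, h2, h3, h4⟩ := generic_position hinf hd hI hA
  obtain ⟨α', β', m', w', h1', h2', h3', h4'⟩ := generic_position hinf hd hI (hA.image σ)
  let h : ℂ ≃+* ℂ := α.trans β
  let h' : ℂ ≃+* ℂ := α'.trans β'
  let ψ : ℂ ≃+* ℂ := (h.symm.trans σ).trans h'
  have e1 : ∀ z ∈ cl ∅, h z = z := by
    intro z hz
    change β (α z) = z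
    rw [h1 z (cl_mono (Set.empty_subset _) hz), h2 z (cl_mono (Set.empty_subset _) hz)]
  have e2 : ∀ z ∈ cl ∅, h' z = z := by
    intro z hz
    change β' (α' z) = z
    rw [h1' z (cl_mono (Set.empty_subset _) hz), h2' z (cl_mono (Set.empty_subset _) hz)]
  have hψ : ∀ z ∈ cl ∅, ψ z = z := by
    intro z hz
    change h' (σ (h.symm z)) = z
    have e3 : h.symm z = z := by rw [RingEquiv.symm_apply_eq, e1 z hz]
    rw [e3, hσ z hz, e2 z hz]
  have hψh : ∀ a, ψ (h a) = h' (σ a) := by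
    intro a
    change h' (σ (h.symm (h a))) = h' (σ a)
    rw [RingEquiv.symm_apply_apply]
  obtain ⟨γ, hγ1, hγ2⟩ := glue h3.indOver h3'.indOver ψ hψ (hA.image h) h4 (by
    have : ψ '' (h '' A) = (fun z => β' (α' z)) '' (σ '' A) := by
      rw [← Set.image_comp, ← Set.image_comp]
      exact Set.image_congr fun a _ => hψh a
    rw [this]
    exact h4')
  refine ⟨α, β, γ, α', β', h1, h2, hγ1, h1', h2', fun a ha => ?_⟩
  rw [RingEquiv.symm_apply_eq, RingEquiv.symm_apply_eq]
  exact (hγ2 (h a) ⟨a, ha, rfl⟩).trans (hψh a)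

end Pool.Agent.AHC
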