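import Mathlib
import Pool.Agent.AHC.Chain

/-!
# A transcendence basis of `ℂ` of the form `T ∪ conj T`
-/

namespace Pool.Agent.AHC

open Cardinal

theorem I_mem_cl (S : Set ℂ) : Complex.I ∈ cl S := by
  refine cl_mono (Set.empty_subset S) ?_
  have h : IsAlgebraic ℚ Complex.I := by
    refine ⟨Polynomial.X ^ 2 + 1, ?_, ?_⟩
    · intro h0
      have := congrArg (Polynomial.eval 0) h0
      simp at this
    · simp
  exact h.extendScalars (by
    exact (algebraMap ℚ (Algebra.adjoin ℚ (∅ : Set ℂ))).injective)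

/-- a transcendence basis of `ℂ` consisting of real numbers -/
theorem exists_real_base : ∃ X : Set ℂ, MC.IsBase X ∧ X ⊆ Set.range ((↑) : ℝ → ℂ) := by
  apply Matroid.Spanning.exists_isBase_subset
  rw [Matroid.spanning_iff]
  refine ⟨?_, by simp⟩
  rw [closure_eq]
  ext z
  simp only [AlgebraicIndependent.matroid_e, Set.mem_univ, iff_true]
  have h1 : (z.re : ℂ) ∈ clF (Set.range ((↑) : ℝ → ℂ)) := subset_cl _ ⟨z.re, rfl⟩
  have h2 : (z.im : ℂ) ∈ clF (Set.range ((↑) : ℝ → ℂ)) := subset_cl _ ⟨z.im, rfl⟩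
  have h3 : Complex.I ∈ clF (Set.range ((↑) : ℝ → ℂ)) := I_mem_cl _
  have h4 := (clF _).add_mem h1 ((clF _).mul_mem h2 h3)
  rw [Complex.re_add_im] at h4
  exact h4

theorem base_mk {X : Set ℂ} (h : MC.IsBase X) : #X = #ℂ := by
  have h1 : IsTranscendenceBasis ℚ ((↑) : X → ℂ) := h
  refine (IsAlgClosed.cardinal_eq_cardinal_transcendence_basis_of_aleph0_lt' _ h1
    Cardinal.mk_le_aleph0 ?_).symm
  rw [Cardinal.mk_complex]
  exact Cardinal.aleph0_lt_continuum

theorem real_mem_of_pair {F : Set ℂ} {x y : ℝ} (h1 : (x : ℂ) + y * Complex.I ∈ cl F)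
    (h2 : (x : ℂ) - y * Complex.I ∈ cl F) : (x : ℂ) ∈ cl F ∧ (y : ℂ) ∈ cl F := by
  have h1' : (x : ℂ) + y * Complex.I ∈ clF F := h1
  have h2' : (x : ℂ) - y * Complex.I ∈ clF F := h2
  have h3 : Complex.I ∈ clF F := I_mem_cl _
  have h4 : (2 : ℂ)⁻¹ ∈ clF F := by
    have := (clF F).algebraMap_mem (2⁻¹ : ℚ)
    simpa using this
  constructor
  · have h5 := (clF F).mul_mem h4 ((clF F).add_mem h1' h2')
    have h6 : (2 : ℂ)⁻¹ * ((x : ℂ) + y * Complex.I + ((x : ℂ) - y * Complex.I)) = x := by ring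
    rw [h6] at h5
    exact h5
  · have h5 := (clF F).mul_mem h4 ((clF F).mul_mem ((clF F).neg_mem h3)
      ((clF F).sub_mem h1' h2'))
    have h6 : (2 : ℂ)⁻¹ * (-Complex.I * ((x : ℂ) + y * Complex.I - ((x : ℂ) - y * Complex.I))) =
        y := by
      ring_nf
      rw [Complex.I_sq]
      ring
    rw [h6] at h5
    exact h5

theorem pair_mem {F : Set ℂ} {x y : ℝ} (h1 : (x : ℂ) ∈ cl F) (h2 : (y : ℂ) ∈ cl F) :
    (x : ℂ) + y * Complex.I ∈ cl F ∧ (x : ℂ) - y * Complex.I ∈ cl F :=
  ⟨(clF F).add_mem h1 ((clF F).mul_mem h2 (I_mem_cl _)),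
    (clF F).sub_mem h1 ((clF F).mul_mem h2 (I_mem_cl _))⟩

/-- two independent real numbers over a conjugation stable set give a number independent of its
conjugate -/
theorem pair_indep {F : Set ℂ} (hF : cc '' F ⊆ cl F) {x y : ℝ} (hx : (x : ℂ) ∉ cl F)
    (hy : (y : ℂ) ∉ cl (insert (x : ℂ) F)) :
    (x : ℂ) + y * Complex.I ∉ cl F ∧
      (x : ℂ) - y * Complex.I ∉ cl (insert ((x : ℂ) + y * Complex.I) F) := by
  have hcc : cc ((x : ℂ) + y * Complex.I) = (x : ℂ) - y * Complex.I := by
    simp [sub_eq_add_neg]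
  have h1 : (x : ℂ) + y * Complex.I ∉ cl F := by
    intro h
    have h2 := map_mem_cl cc h
    rw [hcc] at h2
    exact hx (real_mem_of_pair h (cl_subset_iff.2 hF h2)).1
  refine ⟨h1, fun h => ?_⟩
  have h2 : (x : ℂ) + y * Complex.I ∈ cl (insert ((x : ℂ) + y * Complex.I) F) :=
    subset_cl _ (Set.mem_insert _ _)
  have h3 := (real_mem_of_pair h2 h).1
  have h4 := cl_exchange h3 hx
  have h5 : cl (insert ((x : ℂ) + y * Complex.I) F) ⊆ cl (insert (x : ℂ) F) := by
    rw [cl_subset_iff]
    rintro z (rfl | hz)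
    · exact h4
    · exact subset_cl _ (Or.inr hz)
  exact hy (real_mem_of_pair (h5 h2) (h5 h)).2

/-- **there is a set `T` such that `T` and its conjugate are disjoint and together form a
transcendence basis of `ℂ`** -/
theorem exists_T : ∃ T : Set ℂ, T.Infinite ∧ Disjoint T (cc '' T) ∧ MC.IsBase (T ∪ cc '' T) := by
  obtain ⟨X, hX, hXR⟩ := exists_real_base
  have hXinf : ℵ₀ ≤ #X := by
    rw [base_mk hX, Cardinal.mk_complex]
    exact Cardinal.aleph0_le_continuum
  have hcard : #(X ⊕ X) = #X := by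
    rw [← Cardinal.add_def]
    exact Cardinal.add_eq_self hXinf
  obtain ⟨e⟩ := Cardinal.eq.1 hcard
  have hre : ∀ x : X, ∃ r : ℝ, (r : ℂ) = x := fun x => hXR x.2
  choose r hr using hre
  let a : X → ℝ := fun x => r (e (Sum.inl x))
  let b : X → ℝ := fun x => r (e (Sum.inr x))
  have ha : ∀ x, (a x : ℂ) = e (Sum.inl x) := fun x => hr _
  have hb : ∀ x, (b x : ℂ) = e (Sum.inr x) := fun x => hr _
  let t : X → ℂ := fun x => a x + b x * Complex.I
  have hcct : ∀ x, cc (t x) = (a x : ℂ) - b x * Complex.I := by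
    intro x
    simp [t, sub_eq_add_neg]
  let F : Set X → Set ℂ := fun I => t '' I ∪ (fun x => cc (t x)) '' I
  let G : Set X → Set ℂ := fun I => (fun x => (a x : ℂ)) '' I ∪ (fun x => (b x : ℂ)) '' I
  have hFG : ∀ I, F I ⊆ cl (G I) := by
    rintro I z (⟨x, hx, rfl⟩ | ⟨x, hx, rfl⟩)
    · exact (pair_mem (subset_cl _ (Or.inl ⟨x, hx, rfl⟩)) (subset_cl _ (Or.inr ⟨x, hx, rfl⟩))).1
    · simp only [hcct]
      exact (pair_mem (subset_cl _ (Or.inl ⟨x, hx, rfl⟩)) (subset_cl _ (Or.inr ⟨x, hx, rfl⟩))).2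
  have hGF : ∀ I, G I ⊆ cl (F I) := by
    have h0 : ∀ I x, x ∈ I → (a x : ℂ) ∈ cl (F I) ∧ (b x : ℂ) ∈ cl (F I) := by
      intro I x hx
      refine real_mem_of_pair (subset_cl _ (Or.inl ⟨x, hx, rfl⟩)) ?_
      rw [← hcct]
      exact subset_cl _ (Or.inr ⟨x, hx, rfl⟩)
    rintro I z (⟨x, hx, rfl⟩ | ⟨x, hx, rfl⟩)
    · exact (h0 I x hx).1
    · exact (h0 I x hx).2
  have hccF : ∀ I, cc '' F I ⊆ cl (F I) := by
    rintro I _ ⟨z, (⟨x, hx, rfl⟩ | ⟨x, hx, rfl⟩), rfl⟩
    · exact subset_cl _ (Or.inr ⟨x, hx, rfl⟩)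
    · refine subset_cl _ (Or.inl ⟨x, hx, ?_⟩)
      simp only [cc_cc]
  have hGX : ∀ I, G I ⊆ X := by
    rintro I z (⟨x, hx, rfl⟩ | ⟨x, hx, rfl⟩)
    · simp only [ha]
      exact (e _).2
    · simp only [hb]
      exact (e _).2
  have hGa : ∀ I x, x ∉ I → (a x : ℂ) ∉ cl (G I) := by
    intro I x hx h
    have h1 := hX.indep.notMem_closure_sdiff_of_mem (e (Sum.inl x)).2
    rw [closure_eq, ← ha] at h1
    refine h1 (cl_mono ?_ h)
    intro z hz
    refine ⟨hGX I hz, fun h2 => ?_⟩
    have h2' : z = (a x : ℂ) := h2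
    rcases hz with ⟨y, hy, rfl⟩ | ⟨y, hy, rfl⟩
    · simp only [ha] at h2'
      have h3 := e.injective (Subtype.ext h2')
      rw [Sum.inl.injEq] at h3
      exact hx (h3 ▸ hy)
    · simp only [ha, hb] at h2'
      have h3 := e.injective (Subtype.ext h2')
      exact Sum.inr_ne_inl h3
  have hGb : ∀ I x, x ∉ I → (b x : ℂ) ∉ cl (insert (a x : ℂ) (G I)) := by
    intro I x hx h
    have h1 := hX.indep.notMem_closure_sdiff_of_mem (e (Sum.inr x)).2
    rw [closure_eq, ← hb] at h1
    refine h1 (cl_mono ?_ h)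
    intro z hz
    have hz' : z = (a x : ℂ) ∨ z ∈ G I := hz
    refine ⟨?_, fun h2 => ?_⟩
    · rcases hz' with rfl | hz
      · rw [ha]
        exact (e _).2
      · exact hGX I hz
    have h2' : z = (b x : ℂ) := h2
    rcases hz' with rfl | (⟨y, hy, rfl⟩ | ⟨y, hy, rfl⟩)
    · rw [ha, hb] at h2'
      have h3 := e.injective (Subtype.ext h2')
      exact Sum.inl_ne_inr h3
    · simp only [ha, hb] at h2'
      have h3 := e.injective (Subtype.ext h2')
      exact Sum.inl_ne_inr h3
    · simp only [hb] at h2'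
      have h3 := e.injective (Subtype.ext h2')
      rw [Sum.inr.injEq] at h3
      exact hx (h3 ▸ hy)
  have hfin : ∀ I : Finset X, MC.Indep (F (I : Set X)) := by
    classical
    intro I
    induction I using Finset.induction_on with
    | empty =>
      have : F ((∅ : Finset X) : Set X) = ∅ := by simp [F]
      rw [this]
      exact MC.empty_indep
    | insert x I hx ih =>
      have h1 : F ((insert x I : Finset X) : Set X) = insert (cc (t x)) (insert (t x) (F I)) := by
        simp only [F, Finset.coe_insert, Set.image_insert_eq]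
        ext z
        simp only [Set.mem_union, Set.mem_insert_iff]
        tauto
      have hx' : x ∉ (I : Set X) := by simpa using hx
      have hcl : cl (F I) = cl (G I) :=
        Set.Subset.antisymm (cl_subset_iff.2 (hFG _)) (cl_subset_iff.2 (hGF _))
      have h2 : (a x : ℂ) ∉ cl (F I) := by rw [hcl]; exact hGa _ x hx'
      have h3 : (b x : ℂ) ∉ cl (insert (a x : ℂ) (F I)) := by
        intro h
        refine hGb _ x hx' ((cl_subset_iff.2 ?_) h)
        rintro z (rfl | hz)
        · exact subset_cl _ (Set.mem_insert _ _)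
        · exact cl_mono (Set.subset_insert _ _) (hFG _ hz)
      obtain ⟨h4, h5⟩ := pair_indep (hccF I) h2 h3
      rw [h1]
      have h6 : MC.Indep (insert (t x) (F I)) := by
        rw [← closure_eq] at h4
        exact (ih.notMem_closure_iff.1 h4).1
      rw [← hcct, ← closure_eq] at h5
      exact (h6.notMem_closure_iff.1 h5).1
  have hT : F Set.univ = Set.range t ∪ cc '' Set.range t := by
    simp only [F, Set.image_univ, ← Set.range_comp]
    rfl
  refine ⟨Set.range t, ?_, ?_, ?_⟩
  · have htinj : Function.Injective t := by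
      intro x y hxy
      have h1 := congrArg Complex.re hxy
      simp only [t, Complex.add_re, Complex.ofReal_re, Complex.mul_re, Complex.I_re, mul_zero,
        Complex.ofReal_im, Complex.I_im, mul_one, sub_zero, add_zero] at h1
      have h2 : (e (Sum.inl x) : ℂ) = e (Sum.inl y) := by rw [← ha, ← ha, h1]
      have h3 := e.injective (Subtype.ext h2)
      rwa [Sum.inl.injEq] at h3
    have hXi : Infinite X := Cardinal.infinite_iff.2 hXinf
    exact Set.infinite_range_of_injective htinj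
  · rw [Set.disjoint_left]
    rintro _ ⟨x, rfl⟩ ⟨_, ⟨y, rfl⟩, hxy⟩
    rw [hcct] at hxy
    have h1 := congrArg Complex.re hxy
    have h2 := congrArg Complex.im hxy
    simp only [t, Complex.add_re, Complex.sub_re, Complex.ofReal_re, Complex.mul_re, Complex.I_re,
      mul_zero, Complex.ofReal_im, Complex.I_im, mul_one, sub_zero, add_zero] at h1
    simp only [t, Complex.add_im, Complex.sub_im, Complex.ofReal_im, Complex.mul_im,
      Complex.I_re, mul_zero, Complex.ofReal_re, Complex.I_im, mul_one, add_zero, zero_add,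
      zero_sub] at h2
    have h3 : (e (Sum.inl y) : ℂ) = e (Sum.inl x) := by rw [← ha, ← ha, h1]
    have h4 := e.injective (Subtype.ext h3)
    rw [Sum.inl.injEq] at h4
    subst h4
    have h5 : b y = 0 := by linarith
    have h6 := hGb ∅ y (by simp)
    rw [h5, Complex.ofReal_zero] at h6
    exact h6 (clF _).zero_mem
  · rw [← hT]
    have hind : MC.Indep (F Set.univ) := by
      apply Matroid.indep_of_forall_finite_subset_indep
      intro J hJ hJf
      have hex : ∀ z ∈ J, ∃ x : X, z = t x ∨ z = cc (t x) := by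
        intro z hz
        rcases hJ hz with ⟨x, -, rfl⟩ | ⟨x, -, rfl⟩
        · exact ⟨x, Or.inl rfl⟩
        · exact ⟨x, Or.inr rfl⟩
      have hXi : Infinite X := Cardinal.infinite_iff.2 hXinf
      have hXn : Nonempty X := inferInstance
      choose! f hf using hex
      classical
      let I : Finset X := hJf.toFinset.image f
      refine (hfin I).subset ?_
      intro z hz
      have hfI : f z ∈ (I : Set X) := by
        simp only [I, Finset.coe_image, Set.Finite.coe_toFinset]
        exact ⟨z, hz, rfl⟩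
      rcases hf z hz with h | h
      · exact Or.inl ⟨f z, hfI, h.symm⟩
      · exact Or.inr ⟨f z, hfI, h.symm⟩
    refine hind.isBase_of_spanning ?_
    rw [Matroid.spanning_iff]
    refine ⟨?_, by simp⟩
    have h1 : X ⊆ cl (F Set.univ) := by
      intro z hz
      obtain ⟨s, hs⟩ := e.surjective ⟨z, hz⟩
      refine hGF _ ?_
      rcases s with x | x
      · refine Or.inl ⟨x, Set.mem_univ _, ?_⟩
        simp only [ha, hs]
      · refine Or.inr ⟨x, Set.mem_univ _, ?_⟩
        simp only [hb, hs]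
    rw [closure_eq]
    apply Set.eq_univ_of_univ_subset
    have h2 : cl X = Set.univ := by
      rw [← closure_eq, hX.closure_eq]
      simp
    rw [← h2]
    exact cl_subset_iff.2 h1

end Pool.Agent.AHC
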