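import Mathlib
import Pool.Agent.AHC.Base

/-!
# Automorphisms over the algebraic numbers as limits of products of two conjugates of complex
conjugation
-/

namespace Pool.Agent.AHC

open Cardinal

theorem cl_countable {F : Set ℂ} (hF : F.Countable) : (cl F).Countable := by
  have h1 : Countable (Algebra.adjoin ℚ F) := by
    have h2 : Countable F := hF
    have h3 : #(Algebra.adjoin ℚ F) ≤ ℵ₀ := by
      refine (Algebra.cardinalMk_adjoin_le ℚ F).trans ?_
      simp
    exact Cardinal.mk_le_aleph0_iff.1 h3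
  exact Algebraic.countable (Algebra.adjoin ℚ F) ℂ

theorem exists_notMem_cl {F : Set ℂ} (hF : F.Countable) : ∃ z : ℂ, z ∉ cl F := by
  by_contra h
  push Not at h
  have h1 : (Set.univ : Set ℂ).Countable := (cl_countable hF).mono (fun z _ => h z)
  have h2 : ¬ (Set.univ : Set ℂ).Countable := by
    rw [Set.countable_univ_iff]
    intro h3
    have h4 : #ℂ ≤ ℵ₀ := Cardinal.mk_le_aleph0
    rw [Cardinal.mk_complex] at h4
    exact absurd Cardinal.aleph0_lt_continuum (not_lt.2 h4)
  exact h2 h1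

/-- families independent over a countable set -/
theorem exists_seqInd {F : Set ℂ} (hF : F.Countable) : ∀ n : ℕ, ∃ b : Fin n → ℂ, SeqInd F b
  | 0 => ⟨Fin.elim0, fun i => i.elim0⟩
  | n + 1 => by
    obtain ⟨b, hb⟩ := exists_seqInd hF n
    obtain ⟨z, hz⟩ := exists_notMem_cl (hF.union (Set.countable_range b))
    refine ⟨Fin.snoc b z, SeqInd.snoc ?_ ?_⟩
    · simpa using hb
    · simpa using hz

/-- a family independent together with its conjugate -/
theorem exists_conj_family (n : ℕ) : ∃ s : Fin n → ℂ, SeqInd ∅ s ∧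
    SeqInd (Set.range s) (fun i => cc (s i)) := by
  obtain ⟨T, hinf, hd, hT⟩ := exists_T
  let s : Fin n → ℂ := fun i => hinf.natEmbedding _ (i : ℕ)
  have hs : ∀ i, s i ∈ T := fun i => (hinf.natEmbedding _ (i : ℕ)).2
  have hinj : Function.Injective s := by
    intro i j hij
    exact Fin.ext ((hinf.natEmbedding _).injective (Subtype.ext hij))
  have hsT : Set.range s ⊆ T := by rintro _ ⟨i, rfl⟩; exact hs i
  have hcT : Set.range (fun i => cc (s i)) ⊆ cc '' T := by
    rintro _ ⟨i, rfl⟩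
    exact ⟨s i, hs i, rfl⟩
  refine ⟨s, SeqInd.of_indep hinj (hT.indep.subset ?_) (by simp),
    SeqInd.of_indep (fun i j hij => hinj (cc.injective hij)) (hT.indep.subset ?_)
      (hd.mono hsT hcT)⟩
  · rw [Set.empty_union]
    exact hsT.trans Set.subset_union_left
  · exact Set.union_subset_union hsT hcT

/-- **key lemma**: an automorphism `Ψ` acting as complex conjugation on the algebraic numbers and
moving a basis of `A` to an independent position agrees on `A` with a conjugate of complex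
conjugation by an automorphism over the algebraic numbers -/
theorem exists_conjugate {A : Set ℂ} (hA : A.Finite) (Ψ : ℂ ≃+* ℂ)
    (hΨ : ∀ z ∈ cl ∅, Ψ z = cc z) {n : ℕ} {t : Fin n → ℂ} (ht : SeqInd ∅ t)
    (hAt : A ⊆ cl (Set.range t)) (hΨt : SeqInd (Set.range t) (fun i => Ψ (t i))) :
    ∃ τ : ℂ ≃+* ℂ, (∀ z ∈ cl ∅, τ z = z) ∧ ∀ a ∈ A, τ.symm (cc (τ a)) = Ψ a := by
  obtain ⟨s, hs1, hs2⟩ := exists_conj_family n
  obtain ⟨θ, hθ1, hθ2⟩ := exists_move_seq t s ht hs1
  let g : ℂ ≃+* ℂ := ((Ψ.symm.trans θ).trans cc).trans θ.symm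
  have hg : ∀ z, g z = θ.symm (cc (θ (Ψ.symm z))) := fun _ => rfl
  have hccm : ∀ z ∈ cl ∅, cc z ∈ cl ∅ := by
    intro z hz
    have := map_mem_cl cc hz
    rwa [Set.image_empty] at this
  have hg1 : ∀ z ∈ cl ∅, g z = z := by
    intro z hz
    have h1 : Ψ.symm z = cc z := by
      rw [RingEquiv.symm_apply_eq, hΨ _ (hccm z hz), cc_cc]
    rw [hg, h1, hθ1 _ (hccm z hz), cc_cc, RingEquiv.symm_apply_eq, hθ1 z hz]
  have hθr : θ '' Set.range t = Set.range s := by
    rw [← Set.range_comp]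
    congr 1
    funext i
    exact hθ2 i
  have hθsr : θ.symm '' Set.range s = Set.range t := by
    rw [← hθr, ← Set.image_comp,
      show (θ.symm : ℂ → ℂ) ∘ θ = id from funext fun x => θ.symm_apply_apply x, Set.image_id]
  have hind' : SeqInd (Set.range t) (fun i => θ.symm (cc (s i))) := by
    have := hs2.map θ.symm
    rwa [hθsr] at this
  obtain ⟨α, hα1, hα2⟩ := glue hΨt.indOver hind'.indOver g hg1 (hA.image Ψ)
    (by
      have h1 := Set.image_mono (f := Ψ) hAt
      rw [image_cl, ← Set.range_comp] at h1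
      exact h1)
    (by
      have h1 : g '' (Ψ '' A) = (fun z => θ.symm (cc (θ z))) '' A := by
        rw [← Set.image_comp]
        refine Set.image_congr fun a _ => ?_
        change g (Ψ a) = _
        rw [hg, RingEquiv.symm_apply_apply]
      rw [h1]
      let h : ℂ ≃+* ℂ := (θ.trans cc).trans θ.symm
      have h2 := Set.image_mono (f := h) hAt
      rw [image_cl, ← Set.range_comp] at h2
      have h3 : (h : ℂ → ℂ) ∘ t = fun i => θ.symm (cc (s i)) := by
        funext i
        change θ.symm (cc (θ (t i))) = _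
        rw [hθ2]
      rw [h3] at h2
      exact h2)
  refine ⟨α.trans θ, fun z hz => ?_, fun a ha => ?_⟩
  · rw [RingEquiv.trans_apply, hα1 z (cl_mono (Set.empty_subset _) hz), hθ1 z hz]
  · rw [RingEquiv.symm_apply_eq, RingEquiv.trans_apply, RingEquiv.trans_apply, hα1 a (hAt ha),
      hα2 (Ψ a) ⟨a, ha, rfl⟩, hg, RingEquiv.symm_apply_apply, RingEquiv.apply_symm_apply]

/-- **an automorphism over the algebraic numbers agrees on any finite set with a product of two
conjugates of complex conjugation** -/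
theorem two_conjugates {A : Set ℂ} (hA : A.Finite) (σ : ℂ ≃+* ℂ) (hσ : ∀ z ∈ cl ∅, σ z = z) :
    ∃ τ τ' : ℂ ≃+* ℂ, (∀ z ∈ cl ∅, τ z = z) ∧ (∀ z ∈ cl ∅, τ' z = z) ∧
      ∀ a ∈ A, τ'.symm (cc (τ' (τ.symm (cc (τ a))))) = σ a := by
  obtain ⟨n, t, ht1, -, ht3⟩ := exists_basis ∅ hA
  rw [Set.empty_union] at ht3
  obtain ⟨v, hv⟩ := exists_seqInd
    ((Set.countable_range t).union (Set.countable_range fun i => σ (t i))) n
  have hcct : SeqInd ∅ (fun i => cc (t i)) := by
    have := ht1.map cc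
    rwa [Set.image_empty] at this
  obtain ⟨μ, hμ1, hμ2⟩ := exists_move_seq (fun i => cc (t i)) v hcct
    (hv.mono (Set.empty_subset _))
  let Ψ : ℂ ≃+* ℂ := cc.trans μ
  have hΨt : ∀ i, Ψ (t i) = v i := hμ2
  have hccm : ∀ z ∈ cl ∅, cc z ∈ cl ∅ := by
    intro z hz
    have := map_mem_cl cc hz
    rwa [Set.image_empty] at this
  have hΨ : ∀ z ∈ cl ∅, Ψ z = cc z := fun z hz => hμ1 _ (hccm z hz)
  have h1 : SeqInd (Set.range t) (fun i => Ψ (t i)) := by
    have : (fun i => Ψ (t i)) = v := funext hΨt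
    rw [this]
    exact hv.mono Set.subset_union_left
  obtain ⟨τ, hτ1, hτ2⟩ := exists_conjugate hA Ψ hΨ ht1 ht3 h1
  let Φ : ℂ ≃+* ℂ := Ψ.symm.trans σ
  have hΦ : ∀ z ∈ cl ∅, Φ z = cc z := by
    intro z hz
    change σ (Ψ.symm z) = cc z
    have h2 : Ψ.symm z = cc z := by
      rw [RingEquiv.symm_apply_eq, hΨ _ (hccm z hz), cc_cc]
    rw [h2, hσ _ (hccm z hz)]
  have hΨA : Ψ '' A ⊆ cl (Set.range v) := by
    have h2 := Set.image_mono (f := Ψ) ht3
    rw [image_cl, ← Set.range_comp] at h2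
    have : (Ψ : ℂ → ℂ) ∘ t = v := funext hΨt
    rwa [this] at h2
  have hΦv : ∀ i, Φ (v i) = σ (t i) := by
    intro i
    change σ (Ψ.symm (v i)) = σ (t i)
    rw [← hΨt, RingEquiv.symm_apply_apply]
  have h3 : SeqInd (Set.range v) (fun i => Φ (v i)) := by
    have h4 : (fun i => Φ (v i)) = fun i => σ (t i) := funext hΦv
    rw [h4]
    have h5 : SeqInd ∅ (fun i => σ (t i)) := by
      have := ht1.map σ
      rwa [Set.image_empty] at this
    have h6 := h5.indep MC.empty_indep
    rw [Set.empty_union] at h6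
    have h7 := (hv.mono (Set.subset_union_right (s := Set.range t))).indep h6.1
    refine SeqInd.of_indep h5.injective ?_ h7.2.symm
    rw [Set.union_comm]
    exact h7.1
  obtain ⟨τ', hτ'1, hτ'2⟩ := exists_conjugate (hA.image Ψ) Φ hΦ
    (hv.mono (Set.empty_subset _)) hΨA h3
  refine ⟨τ, τ', hτ1, hτ'1, fun a ha => ?_⟩
  rw [hτ2 a ha, hτ'2 (Ψ a) ⟨a, ha, rfl⟩]
  change σ (Ψ.symm (Ψ a)) = σ a
  rw [RingEquiv.symm_apply_apply]

end Pool.Agent.AHC
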