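import Mathlib
import Pool.Agent.AHC.Two

/-!
# Reduction from `Aut ℂ` to the action on the algebraic numbers
-/

namespace Pool.Agent.AHC

open MvPolynomial

/-- a ring automorphism restricted to the algebraic numbers -/
theorem map_cl_empty (g : ℂ ≃+* ℂ) {z : ℂ} (hz : z ∈ cl ∅) : g z ∈ cl ∅ := by
  have := map_mem_cl g hz
  rwa [Set.image_empty] at this

/-- the restriction of an automorphism of `ℂ` to the algebraic numbers -/
noncomputable def resAlg (g : ℂ ≃+* ℂ) : clF ∅ ≃+* clF ∅ where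
  toFun := fun z => ⟨g z, map_cl_empty g z.2⟩
  invFun := fun z => ⟨g.symm z, map_cl_empty g.symm z.2⟩
  left_inv := fun _ => Subtype.ext (g.symm_apply_apply _)
  right_inv := fun _ => Subtype.ext (g.apply_symm_apply _)
  map_mul' := fun _ _ => Subtype.ext (map_mul g _ _)
  map_add' := fun _ _ => Subtype.ext (map_add g _ _)

theorem resAlg_apply (g : ℂ ≃+* ℂ) (z : clF ∅) : (resAlg g z : ℂ) = g z := rfl

/-- for a finite set `A` there is a finite set `B` of algebraic numbers such that automorphisms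
which agree on `B` agree on `A` up to an automorphism over the algebraic numbers -/
theorem exists_finite_algebraic {A : Set ℂ} (hA : A.Finite) :
    ∃ B : Set ℂ, B.Finite ∧ B ⊆ cl ∅ ∧ ∀ σ h : ℂ ≃+* ℂ, (∀ b ∈ B, h b = σ b) →
      ∃ ρ : ℂ ≃+* ℂ, (∀ z ∈ cl ∅, ρ z = z) ∧ ∀ a ∈ A, h (ρ a) = σ a := by
  classical
  have hfA : Finite A := hA
  let φ : MvPolynomial A (clF ∅) →ₐ[clF ∅] ℂ := aeval Subtype.val
  have hfg : (RingHom.ker φ).FG := IsNoetherian.noetherian _
  obtain ⟨S, hS⟩ := hfg
  let B : Set ℂ := ⋃ f ∈ S, (fun c : clF ∅ => (c : ℂ)) '' (f.coeffs : Set (clF ∅))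
  refine ⟨B, ?_, ?_, ?_⟩
  · refine Set.Finite.biUnion S.finite_toSet fun f _ => ?_
    exact (Finset.finite_toSet _).image _
  · intro z hz
    simp only [B, Set.mem_iUnion] at hz
    obtain ⟨f, -, c, -, rfl⟩ := hz
    exact c.2
  intro σ h hh
  let g : ℂ ≃+* ℂ := σ.trans h.symm
  have hg : ∀ b ∈ B, g b = b := by
    intro b hb
    change h.symm (σ b) = b
    rw [← hh b hb, RingEquiv.symm_apply_apply]
  let ψ : MvPolynomial A (clF ∅) →ₐ[clF ∅] ℂ := aeval (fun a : A => g a)
  let e : MvPolynomial A (clF ∅) ≃+* MvPolynomial A (clF ∅) := mapEquiv A (resAlg g)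
  have heP : ∀ P, e P = map (resAlg g : clF ∅ →+* clF ∅) P := fun P => mapEquiv_apply _ _ _
  have he : ∀ P, ψ (e P) = g (φ P) := by
    intro P
    induction P using MvPolynomial.induction_on with
    | C x =>
      rw [heP, map_C]
      simp only [ψ, φ, algHom_C]
      rfl
    | add P Q hP hQ => rw [map_add, map_add, map_add, map_add, hP, hQ]
    | mul_X P i hP =>
      rw [map_mul, map_mul, map_mul, map_mul, hP, heP (X i), map_X]
      simp only [ψ, φ, aeval_X]
  have hker : RingHom.ker ψ = RingHom.ker φ := by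
    have h1 : RingHom.ker φ = Ideal.comap e (RingHom.ker ψ) := by
      ext P
      rw [Ideal.mem_comap, RingHom.mem_ker, RingHom.mem_ker, he, map_eq_zero_iff g g.injective]
    have h2 : RingHom.ker ψ = Ideal.map e (RingHom.ker φ) := by
      rw [h1, Ideal.map_comap_of_surjective _ e.surjective]
    rw [h2, ← hS, Ideal.map_span]
    congr 1
    have h3 : ∀ f ∈ S, e f = f := by
      intro f hf
      ext m
      have h4 : coeff m (e f) = resAlg g (coeff m f) := by
        rw [heP, coeff_map]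
        rfl
      rw [h4, resAlg_apply]
      by_cases h0 : coeff m f = 0
      · rw [h0]
        simp
      · refine hg _ ?_
        simp only [B, Set.mem_iUnion]
        refine ⟨f, hf, coeff m f, ?_, rfl⟩
        rw [Finset.mem_coe, MvPolynomial.mem_coeffs_iff]
        exact ⟨m, by rwa [mem_support_iff], rfl⟩
    ext P
    constructor
    · rintro ⟨f, hf, rfl⟩
      change e f ∈ _
      rw [h3 f hf]
      exact hf
    · intro hP
      exact ⟨P, hP, h3 P hP⟩
  let Q := MvPolynomial A (clF ∅) ⧸ RingHom.ker φ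
  let φ' : Q →ₐ[clF ∅] ℂ := Ideal.Quotient.liftₐ (RingHom.ker φ) φ (fun a ha => ha)
  let ψ' : Q →ₐ[clF ∅] ℂ := Ideal.Quotient.liftₐ (RingHom.ker φ) ψ
    (fun a ha => by rw [← hker] at ha; exact ha)
  have hφ' : Function.Injective φ' := by
    rw [injective_iff_map_eq_zero]
    intro x hx
    obtain ⟨P, rfl⟩ := Ideal.Quotient.mk_surjective x
    exact Ideal.Quotient.eq_zero_iff_mem.2 hx
  have hψ' : Function.Injective ψ' := by
    rw [injective_iff_map_eq_zero]
    intro x hx
    obtain ⟨P, rfl⟩ := Ideal.Quotient.mk_surjective x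
    refine Ideal.Quotient.eq_zero_iff_mem.2 ?_
    rw [← hker]
    exact hx
  have hinj : Function.Injective (algebraMap (clF ∅) Q) := by
    intro x y hxy
    have h1 : φ' (algebraMap (clF ∅) Q x) = φ' (algebraMap (clF ∅) Q y) := congrArg φ' hxy
    rw [AlgHom.commutes, AlgHom.commutes] at h1
    exact Subtype.ext h1
  obtain ⟨α, hα⟩ := exists_aut (R := clF ∅) (S := Q) hinj trdeg_lt_aleph0_of_finiteType
    φ'.toRingHom ψ'.toRingHom hφ' hψ' (by
      ext x
      change φ' (algebraMap (clF ∅) Q x) = ψ' (algebraMap (clF ∅) Q x)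
      rw [AlgHom.commutes, AlgHom.commutes])
  refine ⟨α, fun z hz => ?_, fun a ha => ?_⟩
  · have h1 := hα (algebraMap (clF ∅) Q ⟨z, hz⟩)
    change α (φ' _) = ψ' _ at h1
    rw [AlgHom.commutes, AlgHom.commutes] at h1
    exact h1
  · have h1 := hα (Ideal.Quotient.mk _ (X (⟨a, ha⟩ : A)))
    change α (φ (X (⟨a, ha⟩ : A))) = ψ (X (⟨a, ha⟩ : A)) at h1
    simp only [φ, ψ, aeval_X] at h1
    rw [h1]
    change h (h.symm (σ a)) = σ a
    rw [RingEquiv.apply_symm_apply]

end Pool.Agent.AHC
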