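import Mathlib
import Pool.Agent.AHC.Alg

/-!
# Closed submonoids of `Aut ℂ` containing the automorphisms over the algebraic numbers
-/

namespace Pool.Agent.AHC

/-- submonoids of `Aut ℂ` closed for the topology of pointwise convergence -/
structure IsClosedMonoid (H : Set (ℂ ≃+* ℂ)) : Prop where
  one_mem : RingEquiv.refl ℂ ∈ H
  mul_mem : ∀ σ ∈ H, ∀ τ ∈ H, σ.trans τ ∈ H
  closed : ∀ σ : ℂ ≃+* ℂ, (∀ A : Set ℂ, A.Finite → ∃ τ ∈ H, ∀ a ∈ A, τ a = σ a) → σ ∈ H

theorem mem_cl_empty {z : ℂ} (h : IsAlgebraic ℚ z) : z ∈ cl ∅ :=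
  h.extendScalars (algebraMap ℚ (Algebra.adjoin ℚ (∅ : Set ℂ))).injective

theorem isAlgebraic_of_mem_cl_empty {z : ℂ} (h : z ∈ cl ∅) : IsAlgebraic ℚ z := by
  have h1 : Algebra.IsAlgebraic ℚ (Algebra.adjoin ℚ (∅ : Set ℂ)) := by
    refine ⟨fun x => ?_⟩
    have h2 : ∀ y : ℂ, y ∈ Algebra.adjoin ℚ (∅ : Set ℂ) → y ∈ Set.range (algebraMap ℚ ℂ) := by
      intro y hy
      rwa [Algebra.adjoin_empty, Algebra.mem_bot] at hy
    obtain ⟨q, hq⟩ := h2 x x.2
    have h3 : x = algebraMap ℚ _ q := Subtype.ext hq.symm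
    rw [h3]
    exact isAlgebraic_algebraMap q
  exact IsAlgebraic.restrictScalars ℚ h

/-- a ring automorphism of `ℂ` as a `ℚ`-algebra automorphism -/
noncomputable def asRat (σ : ℂ ≃+* ℂ) : ℂ ≃ₐ[ℚ] ℂ :=
  AlgEquiv.ofRingEquiv (f := σ) (fun r => by simp)

theorem asRat_apply (σ : ℂ ≃+* ℂ) (z : ℂ) : asRat σ z = σ z := rfl

/-- **the Galois correspondence above the algebraic numbers**: a closed submonoid of `Aut ℂ` which
contains all automorphisms over the algebraic numbers contains every automorphism which fixes all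
algebraic numbers fixed by the submonoid -/
theorem galois_closed {H : Set (ℂ ≃+* ℂ)} (hH : IsClosedMonoid H)
    (hk : ∀ σ : ℂ ≃+* ℂ, (∀ z ∈ cl ∅, σ z = z) → σ ∈ H) (σ : ℂ ≃+* ℂ)
    (hσ : ∀ z ∈ cl ∅, (∀ h ∈ H, h z = z) → σ z = z) : σ ∈ H := by
  refine hH.closed σ fun A hA => ?_
  obtain ⟨B, hBf, hB, hAB⟩ := exists_finite_algebraic hA
  let p : Polynomial ℚ := ∏ b ∈ hBf.toFinset, minpoly ℚ b
  have hint : ∀ b ∈ B, IsIntegral ℚ b := fun b hb =>
    (isAlgebraic_of_mem_cl_empty (hB hb)).isIntegral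
  have hp0 : p ≠ 0 := by
    refine Finset.prod_ne_zero_iff.2 fun b hb => ?_
    exact minpoly.ne_zero (hint b (by simpa using hb))
  let N : IntermediateField ℚ ℂ := IntermediateField.adjoin ℚ (p.rootSet ℂ)
  have hsp : p.IsSplittingField ℚ N :=
    IntermediateField.adjoin_rootSet_isSplittingField (IsAlgClosed.splits _)
  have hnorm : Normal ℚ N := Normal.of_isSplittingField p
  have hfd : FiniteDimensional ℚ N := Polynomial.IsSplittingField.finiteDimensional N p
  have hBN : ∀ b ∈ B, b ∈ N := by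
    intro b hb
    refine IntermediateField.subset_adjoin ℚ _ ?_
    rw [Polynomial.mem_rootSet]
    refine ⟨hp0, ?_⟩
    simp only [p, map_prod]
    exact Finset.prod_eq_zero (by simpa using hb) (minpoly.aeval ℚ b)
  let HN : Subgroup (N ≃ₐ[ℚ] N) :=
    { carrier := {g | ∃ h ∈ H, ∀ x : N, (g x : ℂ) = h x}
      one_mem' := ⟨_, hH.one_mem, fun x => rfl⟩
      mul_mem' := by
        rintro g g' ⟨h, h1, h2⟩ ⟨h', h1', h2'⟩
        refine ⟨h'.trans h, hH.mul_mem _ h1' _ h1, fun x => ?_⟩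
        rw [RingEquiv.trans_apply, ← h2', AlgEquiv.mul_apply, h2]
      inv_mem' := by
        intro g hg
        have hpow : ∀ n : ℕ, ∃ h ∈ H, ∀ x : N, ((g ^ n) x : ℂ) = h x := by
          intro n
          induction n with
          | zero => exact ⟨_, hH.one_mem, fun x => rfl⟩
          | succ n ih =>
            obtain ⟨h, h1, h2⟩ := ih
            obtain ⟨h', h1', h2'⟩ := hg
            refine ⟨h'.trans h, hH.mul_mem _ h1' _ h1, fun x => ?_⟩
            rw [RingEquiv.trans_apply, ← h2', pow_succ, AlgEquiv.mul_apply, h2]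
        have hinv : g⁻¹ = g ^ (orderOf g - 1) := by
          apply inv_eq_of_mul_eq_one_right
          rw [← pow_succ', Nat.sub_add_cancel (orderOf_pos g), pow_orderOf_eq_one]
        rw [hinv]
        exact hpow _ }
  have hres : ∀ (s : ℂ ≃+* ℂ) (x : N),
      ((AlgEquiv.restrictNormalHom N (asRat s) : N ≃ₐ[ℚ] N) x : ℂ) = s x :=
    fun s x => AlgEquiv.restrictNormal_commutes (asRat s) N x
  let σN : N ≃ₐ[ℚ] N := AlgEquiv.restrictNormalHom N (asRat σ)
  have hσN : σN ∈ IntermediateField.fixingSubgroup (IntermediateField.fixedField HN) := by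
    rw [IntermediateField.mem_fixingSubgroup_iff]
    intro x hx
    rw [IntermediateField.mem_fixedField_iff] at hx
    apply Subtype.ext
    refine (hres σ x).trans ?_
    refine hσ _ (mem_cl_empty ?_) ?_
    · have h1 : IsAlgebraic ℚ x := (Algebra.IsAlgebraic.isAlgebraic x)
      exact h1.algHom N.val
    · intro h hh
      have h1 := hx (AlgEquiv.restrictNormalHom N (asRat h)) ⟨h, hh, fun y => hres h y⟩
      have h2 := congrArg Subtype.val h1
      exact (hres h x).symm.trans h2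
  rw [IntermediateField.fixingSubgroup_fixedField] at hσN
  obtain ⟨h, h1, h2⟩ := hσN
  obtain ⟨ρ, hρ1, hρ2⟩ := hAB σ h (fun b hb => by
    have h3 := h2 ⟨b, hBN b hb⟩
    exact h3.symm.trans (hres σ ⟨b, hBN b hb⟩))
  exact ⟨ρ.trans h, hH.mul_mem _ (hk ρ hρ1) _ h1, fun a ha => hρ2 a ha⟩

/-- an algebraic number outside a subfield is moved by an automorphism over the subfield -/
theorem exists_aut_ne (K : Subfield ℂ) {z : ℂ} (hz : z ∈ cl ∅) (hzK : z ∉ K) :
    ∃ α : ℂ ≃+* ℂ, (∀ x ∈ K, α x = x) ∧ α z ≠ z := by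
  have hint : IsIntegral K z :=
    ((isAlgebraic_of_mem_cl_empty hz).isIntegral).tower_top
  have hdeg : (minpoly K z).natDegree ≠ 1 := by
    intro h
    rw [minpoly.natDegree_eq_one_iff] at h
    obtain ⟨x, hx⟩ := h
    exact hzK (by rw [← hx]; exact x.2)
  have hpos : 0 < (minpoly K z).natDegree := minpoly.natDegree_pos hint
  have hsep : (minpoly K z).Separable := (minpoly.irreducible hint).separable
  have hcard : 1 < Fintype.card ((minpoly K z).rootSet ℂ) := by
    rw [Polynomial.card_rootSet_eq_natDegree hsep (IsAlgClosed.splits _)]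
    omega
  have hzr : z ∈ (minpoly K z).rootSet ℂ := by
    rw [Polynomial.mem_rootSet]
    exact ⟨minpoly.ne_zero hint, minpoly.aeval K z⟩
  obtain ⟨⟨w, hw⟩, hwz⟩ := Fintype.exists_ne_of_one_lt_card hcard (⟨z, hzr⟩ : (minpoly K z).rootSet ℂ)
  have hwz' : w ≠ z := fun h => hwz (Subtype.ext h)
  have hirr : Fact (Irreducible (minpoly K z)) := ⟨minpoly.irreducible hint⟩
  let S := AdjoinRoot (minpoly K z)
  let φ : S →ₐ[K] ℂ := AdjoinRoot.liftAlgHom (minpoly K z) (Algebra.ofId K ℂ) z (by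
    have := minpoly.aeval K z
    exact this)
  let ψ : S →ₐ[K] ℂ := AdjoinRoot.liftAlgHom (minpoly K z) (Algebra.ofId K ℂ) w (by
    rw [Polynomial.mem_rootSet] at hw
    exact hw.2)
  have hfin : Algebra.FiniteType K S := by
    have : Module.Finite K S := (AdjoinRoot.powerBasis (minpoly.ne_zero hint)).finite
    infer_instance
  obtain ⟨α, hα⟩ := exists_aut (R := K) (S := S) (algebraMap K S).injective
    trdeg_lt_aleph0_of_finiteType φ.toRingHom ψ.toRingHom φ.toRingHom.injective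
    ψ.toRingHom.injective (by
      ext x
      change φ (algebraMap K S x) = ψ (algebraMap K S x)
      rw [AlgHom.commutes, AlgHom.commutes])
  refine ⟨α, fun x hx => ?_, ?_⟩
  · have h1 := hα (algebraMap K S ⟨x, hx⟩)
    change α (φ _) = ψ _ at h1
    rw [AlgHom.commutes, AlgHom.commutes] at h1
    exact h1
  · have h1 := hα (AdjoinRoot.root _)
    have h2 : φ (AdjoinRoot.root _) = z := AdjoinRoot.liftAlgHom_root _ _ _ _
    have h3 : ψ (AdjoinRoot.root _) = w := AdjoinRoot.liftAlgHom_root _ _ _ _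
    change α (φ _) = ψ _ at h1
    rw [h2, h3] at h1
    rw [h1]
    exact hwz'

end Pool.Agent.AHC
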