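import Mathlib
import Pool.Agent.AHC.Gal

/-!
# Closed submonoids of `Aut ℂ` containing complex conjugation
-/

namespace Pool.Agent.AHC

open Cardinal

attribute [local instance] MvPolynomial.algebraMvPolynomial

/-- every automorphism of the algebraic numbers extends to `ℂ` fixing an independent set -/
theorem exists_fix_indep {T : Set ℂ} (hT : MC.Indep T) (σ : ℂ ≃+* ℂ) :
    ∃ ρ : ℂ ≃+* ℂ, (∀ z ∈ T, ρ z = z) ∧ ∀ z ∈ cl ∅, ρ z = σ z := by
  have halg : Algebra.IsAlgebraic ℚ (clF ∅) := by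
    refine ⟨fun x => ?_⟩
    have h1 : IsAlgebraic ℚ (x : ℂ) := isAlgebraic_of_mem_cl_empty x.2
    exact (isAlgebraic_algebraMap_iff (algebraMap (clF ∅) ℂ).injective).1 h1
  have hT0 : AlgebraicIndependent ℚ (Subtype.val : T → ℂ) := hT
  have hT1 : AlgebraicIndependent (clF ∅) (Subtype.val : T → ℂ) := hT0.extendScalars _
  let φ : MvPolynomial T (clF ∅) →+* ℂ := (MvPolynomial.aeval (Subtype.val : T → ℂ) :
    MvPolynomial T (clF ∅) →ₐ[clF ∅] ℂ).toRingHom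
  let e : MvPolynomial T (clF ∅) ≃+* MvPolynomial T (clF ∅) := MvPolynomial.mapEquiv T (resAlg σ)
  let ψ : MvPolynomial T (clF ∅) →+* ℂ := φ.comp e.toRingHom
  have heP : ∀ P, e P = MvPolynomial.map (resAlg σ : clF ∅ →+* clF ∅) P :=
    fun P => MvPolynomial.mapEquiv_apply _ _ _
  have hψC : ∀ z : clF ∅, ψ (MvPolynomial.C z) = σ z := by
    intro z
    change φ (e _) = _
    rw [heP, MvPolynomial.map_C]
    simp only [φ]
    change MvPolynomial.aeval _ (MvPolynomial.C _) = _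
    rw [MvPolynomial.algHom_C]
    rfl
  have hψX : ∀ t : T, ψ (MvPolynomial.X t) = t := by
    intro t
    change φ (e _) = _
    rw [heP, MvPolynomial.map_X]
    exact MvPolynomial.aeval_X _ _
  have hφC : ∀ z : clF ∅, φ (MvPolynomial.C z) = z := by
    intro z
    change MvPolynomial.aeval _ (MvPolynomial.C _) = _
    rw [MvPolynomial.algHom_C]
    rfl
  have hφX : ∀ t : T, φ (MvPolynomial.X t) = t := fun t => MvPolynomial.aeval_X _ _
  have hφi : Function.Injective φ := hT1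
  have hψi : Function.Injective ψ := hφi.comp e.injective
  have htr : Algebra.trdeg (MvPolynomial T ℚ) (MvPolynomial T (clF ∅)) < ℵ₀ := by
    rw [trdeg_eq_zero]
    exact Cardinal.aleph0_pos
  obtain ⟨ρ, hρ⟩ := exists_aut (R := MvPolynomial T ℚ) (S := MvPolynomial T (clF ∅))
    (MvPolynomial.map_injective _ (algebraMap ℚ (clF ∅)).injective) htr φ ψ hφi hψi (by
      refine MvPolynomial.ringHom_ext (fun q => ?_) (fun t => ?_)
      · change φ (MvPolynomial.map _ (MvPolynomial.C q)) = ψ (MvPolynomial.map _ (MvPolynomial.C q))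
        rw [MvPolynomial.map_C, hφC, hψC]
        simp
      · change φ (MvPolynomial.map _ (MvPolynomial.X t)) = ψ (MvPolynomial.map _ (MvPolynomial.X t))
        rw [MvPolynomial.map_X, hφX, hψX])
  refine ⟨ρ, fun z hz => ?_, fun z hz => ?_⟩
  · have h := hρ (MvPolynomial.X ⟨z, hz⟩)
    rwa [hφX, hψX] at h
  · have h := hρ (MvPolynomial.C ⟨z, hz⟩)
    rwa [hφC, hψC] at h

/-- the conjugate `τ⁻¹ c τ` of complex conjugation -/
noncomputable def conjBy (τ : ℂ ≃+* ℂ) : ℂ ≃+* ℂ := (τ.trans cc).trans τ.symm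

theorem conjBy_apply (τ : ℂ ≃+* ℂ) (z : ℂ) : conjBy τ z = τ.symm (cc (τ z)) := rfl

variable {H : Set (ℂ ≃+* ℂ)}

/-- closed submonoids containing `c` and all automorphisms fixing `cl T` contain all
automorphisms over the algebraic numbers -/
theorem alg_of_T (hH : IsClosedMonoid H) (hc : cc ∈ H) {T : Set ℂ} (hinf : T.Infinite)
    (hd : Disjoint T (cc '' T)) (hI : MC.Indep (T ∪ cc '' T))
    (hT : ∀ σ : ℂ ≃+* ℂ, (∀ z ∈ cl T, σ z = z) → σ ∈ H) (σ : ℂ ≃+* ℂ)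
    (hσ : ∀ z ∈ cl ∅, σ z = z) : σ ∈ H := by
  have hT' : ∀ β : ℂ ≃+* ℂ, (∀ z ∈ cl (cc '' T), β z = z) → β ∈ H := by
    intro β hβ
    have h1 : ((cc.trans β).trans cc) ∈ H := by
      refine hT _ fun z hz => ?_
      change cc (β (cc z)) = z
      rw [hβ _ (map_mem_cl cc hz), cc_cc]
    have h2 := hH.mul_mem _ (hH.mul_mem _ hc _ h1) _ hc
    have h3 : (cc.trans ((cc.trans β).trans cc)).trans cc = β := by
      ext z
      change cc (cc (β (cc (cc z)))) = β z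
      rw [cc_cc, cc_cc]
    rwa [h3] at h2
  have hsymm : ∀ (S : Set ℂ) (β : ℂ ≃+* ℂ), (∀ z ∈ S, β z = z) → ∀ z ∈ S, β.symm z = z := by
    intro S β hβ z hz
    rw [RingEquiv.symm_apply_eq, hβ z hz]
  refine hH.closed σ fun A hA => ?_
  obtain ⟨α, β, γ, α', β', h1, h2, h3, h4, h5, h6⟩ := chain hinf hd hI hA σ hσ
  refine ⟨(((α.trans β).trans γ).trans β'.symm).trans α'.symm, ?_, h6⟩
  refine hH.mul_mem _ (hH.mul_mem _ (hH.mul_mem _ (hH.mul_mem _ (hT α h1) _ (hT' β h2)) _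
    (hT γ h3)) _ (hT' _ (hsymm _ _ h5))) _ (hT _ (hsymm _ _ h4))

/-- **Theorem A** -/
theorem fix_subfield (hH : IsClosedMonoid H) (hc : cc ∈ H) {T : Set ℂ} (hinf : T.Infinite)
    (hd : Disjoint T (cc '' T)) (hI : MC.Indep (T ∪ cc '' T)) (K : Subfield ℂ)
    (hKT : ∀ z ∈ K, z ∈ cl T) (hK : ∀ σ : ℂ ≃+* ℂ, (∀ z ∈ K, σ z = z) → σ ∈ H) (σ : ℂ ≃+* ℂ)
    (hσ : ∀ z ∈ K, cc z = z → σ z = z) : σ ∈ H := by
  refine galois_closed hH (alg_of_T hH hc hinf hd hI fun σ hσ => hK σ fun z hz => hσ z (hKT z hz))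
    σ fun z hz hz' => hσ z ?_ (hz' cc hc)
  by_contra hzK
  obtain ⟨α, h1, h2⟩ := exists_aut_ne K hz hzK
  exact h2 (hz' α (hK α h1))

/-- **Theorem A'** -/
theorem fix_T (hH : IsClosedMonoid H) (hc : cc ∈ H) {T : Set ℂ} (hinf : T.Infinite)
    (hd : Disjoint T (cc '' T)) (hI : MC.Indep (T ∪ cc '' T))
    (hT : ∀ σ : ℂ ≃+* ℂ, (∀ z ∈ T, σ z = z) → σ ∈ H) (σ : ℂ ≃+* ℂ) : σ ∈ H := by
  refine galois_closed hH (alg_of_T hH hc hinf hd hI fun σ hσ => hT σ fun z hz =>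
    hσ z (subset_cl _ hz)) σ fun z hz hz' => ?_
  obtain ⟨ρ, h1, h2⟩ := exists_fix_indep (hI.subset Set.subset_union_left) σ
  rw [← h2 z hz]
  exact hz' ρ (hT ρ h1)

/-- totally real algebraic numbers -/
def TotallyReal (z : ℂ) : Prop :=
  IsAlgebraic ℚ z ∧ ∀ w : ℂ, Polynomial.aeval w (minpoly ℚ z) = 0 → w.im = 0

/-- conjugate algebraic numbers differ by an automorphism of `ℂ` -/
theorem exists_aut_root {z w : ℂ} (hz : IsAlgebraic ℚ z)
    (hw : Polynomial.aeval w (minpoly ℚ z) = 0) : ∃ τ : ℂ ≃+* ℂ, τ z = w := by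
  have hint : IsIntegral ℚ z := hz.isIntegral
  have hirr : Fact (Irreducible (minpoly ℚ z)) := ⟨minpoly.irreducible hint⟩
  let S := AdjoinRoot (minpoly ℚ z)
  let φ : S →ₐ[ℚ] ℂ := AdjoinRoot.liftAlgHom (minpoly ℚ z) (Algebra.ofId ℚ ℂ) z (by
    have := minpoly.aeval ℚ z
    exact this)
  let ψ : S →ₐ[ℚ] ℂ := AdjoinRoot.liftAlgHom (minpoly ℚ z) (Algebra.ofId ℚ ℂ) w hw
  have hfin : Algebra.FiniteType ℚ S := by
    have : Module.Finite ℚ S := (AdjoinRoot.powerBasis (minpoly.ne_zero hint)).finite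
    infer_instance
  obtain ⟨α, hα⟩ := exists_aut (R := ℚ) (S := S) (algebraMap ℚ S).injective
    trdeg_lt_aleph0_of_finiteType φ.toRingHom ψ.toRingHom φ.toRingHom.injective
    ψ.toRingHom.injective (by
      ext x
      change φ (algebraMap ℚ S x) = ψ (algebraMap ℚ S x)
      rw [AlgHom.commutes, AlgHom.commutes])
  refine ⟨α, ?_⟩
  have h1 := hα (AdjoinRoot.root _)
  have h2 : φ (AdjoinRoot.root _) = z := AdjoinRoot.liftAlgHom_root _ _ _ _
  have h3 : ψ (AdjoinRoot.root _) = w := AdjoinRoot.liftAlgHom_root _ _ _ _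
  change α (φ _) = ψ _ at h1
  rw [h2, h3] at h1
  exact h1

theorem cc_eq_self_iff {z : ℂ} : cc z = z ↔ z.im = 0 := by
  rw [cc_apply]
  exact Complex.conj_eq_iff_im

/-- **Theorem C** -/
theorem conjBy_alg (hH : IsClosedMonoid H) :
    (∀ τ : ℂ ≃+* ℂ, (∀ z, IsAlgebraic ℚ z → τ z = z) → conjBy τ ∈ H) ↔
      ∀ σ : ℂ ≃+* ℂ, (∀ z, IsAlgebraic ℚ z → z.im = 0 → σ z = z) → σ ∈ H := by
  constructor
  · intro h σ hσ
    have hc : cc ∈ H := by
      have h1 := h (RingEquiv.refl ℂ) (fun z _ => rfl)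
      have h2 : conjBy (RingEquiv.refl ℂ) = cc := by
        ext z
        rfl
      rwa [h2] at h1
    refine galois_closed hH (fun σ hσ => ?_) σ fun z hz hz' => ?_
    · refine hH.closed σ fun A hA => ?_
      obtain ⟨τ, τ', h1, h2, h3⟩ := two_conjugates hA σ hσ
      exact ⟨(conjBy τ).trans (conjBy τ'), hH.mul_mem _
        (h τ fun z hz => h1 z (mem_cl_empty hz)) _ (h τ' fun z hz => h2 z (mem_cl_empty hz)), h3⟩
    · exact hσ z (isAlgebraic_of_mem_cl_empty hz) (cc_eq_self_iff.1 (hz' cc hc))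
  · intro h τ hτ
    refine h _ fun z hz hz' => ?_
    rw [conjBy_apply, hτ z hz, cc_eq_self_iff.2 hz', RingEquiv.symm_apply_eq, hτ z hz]

/-- **Theorem B** -/
theorem conjBy_tr (hH : IsClosedMonoid H) :
    (∀ τ : ℂ ≃+* ℂ, conjBy τ ∈ H) ↔
      ∀ σ : ℂ ≃+* ℂ, (∀ z, TotallyReal z → σ z = z) → σ ∈ H := by
  constructor
  · intro h σ hσ
    refine galois_closed hH (fun σ hσ => ?_) σ fun z hz hz' => ?_
    · refine hH.closed σ fun A hA => ?_
      obtain ⟨τ, τ', h1, h2, h3⟩ := two_conjugates hA σ hσ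
      exact ⟨(conjBy τ).trans (conjBy τ'), hH.mul_mem _ (h τ) _ (h τ'), h3⟩
    · refine hσ z ⟨isAlgebraic_of_mem_cl_empty hz, fun w hw => ?_⟩
      obtain ⟨τ, hτ⟩ := exists_aut_root (isAlgebraic_of_mem_cl_empty hz) hw
      have h1 := hz' _ (h τ)
      rw [conjBy_apply, RingEquiv.symm_apply_eq, hτ] at h1
      exact cc_eq_self_iff.1 h1
  · intro h τ
    refine h _ fun z hz => ?_
    have h1 : Polynomial.aeval (τ z) (minpoly ℚ z) = 0 := by
      have h2 := Polynomial.aeval_algHom_apply (asRat τ : ℂ →ₐ[ℚ] ℂ) z (minpoly ℚ z)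
      rw [minpoly.aeval, map_zero] at h2
      exact h2
    rw [conjBy_apply, cc_eq_self_iff.2 (hz.2 _ h1), RingEquiv.symm_apply_apply]

end Pool.Agent.AHC
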