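import Mathlib
import Pool.Agent.AHC.Abs

/-!
# The de Rham part of the absolute Hodge conjecture, concretely

A projective variety `Y ⊆ P^N` is given by homogeneous equations `F`.  Classes in
`F^k H^{2k}_{dR}(Y/ℂ)` are represented by Čech cochains of algebraic differential forms of degree
`≥ k` for the standard affine cover of `Y`; the comparison with singular cohomology is integration
over smooth simplices, with values in the Čech–singular double complex.
-/

namespace Pool.Agent.AHC

open MvPolynomial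
open scoped ContDiff LinearAlgebra.Projectivization

/-- polynomials in the homogeneous coordinates of `P^N` -/
abbrev CPoly (N : ℕ) : Type := MvPolynomial (Fin (N + 1)) ℂ

/-- the point `z` lies on the affine cone defined by the equations `F` -/
def OnCone {N m : ℕ} (F : Fin m → CPoly N) (z : Fin (N + 1) → ℂ) : Prop :=
  ∀ i, eval z (F i) = 0

/-- `F` defines a smooth projective variety (non-empty and irreducible) in `P^N` -/
structure IsSmoothProjective {N m : ℕ} (F : Fin m → CPoly N) : Prop where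
  homogeneous : ∀ i, ∃ d, (F i).IsHomogeneous d
  nonempty : ∃ z, z ≠ 0 ∧ OnCone F z
  irreducible : ∀ P Q : CPoly N, (∀ z, OnCone F z → eval z (P * Q) = 0) →
    (∀ z, OnCone F z → eval z P = 0) ∨ (∀ z, OnCone F z → eval z Q = 0)
  smooth : ∀ z, z ≠ 0 → OnCone F z → ∃ (r : ℕ) (j : Fin r → Fin m) (h : CPoly N),
    LinearIndependent ℂ (fun (a : Fin r) (l : Fin (N + 1)) => eval z (pderiv l (F (j a)))) ∧
      eval z h ≠ 0 ∧ ∀ i, h * F i ∈ Ideal.span (Set.range fun a => F (j a))

/-- a rational function `num / ∏ x_i ^ den i` -/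
structure RatFun (N : ℕ) where
  num : CPoly N
  den : Fin (N + 1) → ℕ

/-- the value of a rational function at a point in homogeneous coordinates -/
noncomputable def RatFun.val {N : ℕ} (f : RatFun N) (z : Fin (N + 1) → ℂ) : ℂ :=
  eval z f.num / ∏ i, z i ^ f.den i

/-- `f` is homogeneous of degree `0` and regular on the open set where all coordinates `x_(I a)`
are different from `0` -/
def RatFun.IsRegularOn {N : ℕ} (f : RatFun N) {p : ℕ} (I : Fin (p + 1) → Fin (N + 1)) : Prop :=
  f.num.IsHomogeneous (∑ i, f.den i) ∧ ∀ i, f.den i ≠ 0 → i ∈ Set.range I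

/-- an algebraic differential form of degree `q`: a finite sum of forms `f dg_1 ∧ ... ∧ dg_q` -/
abbrev AlgForm (N q : ℕ) : Type := List (RatFun N × (Fin q → RatFun N))

/-- Čech cochains of algebraic forms for the standard cover: `w p q I` is a form of degree `q` on
`U_I = {x_(I 0) ≠ 0, ..., x_(I p) ≠ 0}` -/
abbrev FormCochain (N : ℕ) : Type := ∀ p q : ℕ, (Fin (p + 1) → Fin (N + 1)) → AlgForm N q

/-- the regular cochains of total degree `2k` all of whose components are forms of degree at
least `k` -/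
def IsHodgeCochain {N : ℕ} (k : ℕ) (w : FormCochain N) : Prop :=
  (∀ p q, p + q = 2 * k → ∀ I, ∀ x ∈ w p q I,
    x.1.IsRegularOn I ∧ ∀ b, (x.2 b).IsRegularOn I) ∧
  ∀ p q, p + q = 2 * k → q < k → ∀ I, w p q I = []

/-- barycentric coordinates of a point of the simplex `{t ≥ 0, ∑ t ≤ 1}` -/
noncomputable def bary {q : ℕ} (t : Fin q → ℝ) : Fin (q + 1) → ℝ := Fin.cons (1 - ∑ i, t i) t

/-- the domain of integration -/
def simplexDomain (q : ℕ) : Set (Fin q → ℝ) := {t | (∀ i, 0 ≤ t i) ∧ ∑ i, t i ≤ 1}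

/-- the integral of `f dg_1 ∧ ... ∧ dg_q` over the simplex with lift `v` to homogeneous
coordinates -/
noncomputable def termIntegral {N q : ℕ} (f : RatFun N) (g : Fin q → RatFun N)
    (v : (Fin (q + 1) → ℝ) → (Fin (N + 1) → ℂ)) : ℂ :=
  ∫ t in simplexDomain q, f.val (v (bary t)) *
    Matrix.det (Matrix.of fun a b : Fin q =>
      fderiv ℝ (fun s : Fin q → ℝ => (g b).val (v (bary s))) t (Pi.single a 1))

/-- the integral of an algebraic form over a simplex -/
noncomputable def formIntegral {N q : ℕ} (w : AlgForm N q)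
    (v : (Fin (q + 1) → ℝ) → (Fin (N + 1) → ℂ)) : ℂ :=
  (w.map fun x => termIntegral x.1 x.2 v).sum

/-- maps from the standard `q`-simplex to `P^N(ℂ)` -/
abbrev Simplex (N q : ℕ) : Type := stdSimplex ℝ (Fin (q + 1)) → ℙ ℂ (Fin (N + 1) → ℂ)

/-- `v` is a smooth lift of the simplex `s`, which lies in the open subset `U_I` of the variety
defined by `F` -/
structure IsLift {N m : ℕ} (F : Fin m → CPoly N) {p : ℕ} (I : Fin (p + 1) → Fin (N + 1)) {q : ℕ}
    (s : Simplex N q) (v : (Fin (q + 1) → ℝ) → (Fin (N + 1) → ℂ)) : Prop where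
  smooth : ContDiff ℝ ∞ v
  onCone : ∀ t ∈ stdSimplex ℝ (Fin (q + 1)), OnCone F (v t)
  inOpen : ∀ t ∈ stdSimplex ℝ (Fin (q + 1)), ∀ a, v t (I a) ≠ 0
  lifts : ∀ t : stdSimplex ℝ (Fin (q + 1)), ∃ h : v t ≠ 0, s t = Projectivization.mk ℂ (v t) h

/-- Čech cochains with values in singular cochains -/
abbrev SingCochain (N : ℕ) (R : Type) : Type :=
  ∀ p q : ℕ, (Fin (p + 1) → Fin (N + 1)) → Simplex N q → R

/-- the `i`-th face of the standard simplex -/
def face {q : ℕ} (i : Fin (q + 2)) (t : stdSimplex ℝ (Fin (q + 1))) :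
    stdSimplex ℝ (Fin (q + 2)) :=
  ⟨i.insertNth (0 : ℝ) (t : Fin (q + 1) → ℝ), by
    constructor
    · intro j
      refine i.succAboveCases ?_ (fun l => ?_) j
      · simp
      · simp
    · rw [Fin.sum_univ_succAbove _ i]
      simp⟩

/-- the Čech differential -/
def cechD {N : ℕ} {R : Type} [CommRing R] (b : SingCochain N R) :
    ∀ p q : ℕ, (Fin (p + 1) → Fin (N + 1)) → Simplex N q → R
  | 0, _, _, _ => 0
  | p + 1, q, I, s => ∑ a : Fin (p + 2), (-1) ^ (a : ℕ) * b p q (I ∘ a.succAbove) s

/-- the singular differential -/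
def singD {N : ℕ} {R : Type} [CommRing R] (b : SingCochain N R) :
    ∀ p q : ℕ, (Fin (p + 1) → Fin (N + 1)) → Simplex N q → R
  | _, 0, _, _ => 0
  | p, q + 1, I, s => ∑ i : Fin (q + 2), (-1) ^ (i : ℕ) * b p q I (s ∘ face i)

/-- the total differential -/
def totD {N : ℕ} {R : Type} [CommRing R] (b : SingCochain N R) (p q : ℕ)
    (I : Fin (p + 1) → Fin (N + 1)) (s : Simplex N q) : R :=
  cechD b p q I s + (-1) ^ p * singD b p q I s

/-- **rationality**: the cochain of algebraic forms `w` of total degree `2k` is a cocycle whose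
class in `H^{2k}(Y^an, ℂ)` lies in `(2πi)^k H^{2k}(Y^an, ℚ)`: it is `(2πi)^k` times a rational
cocycle plus a coboundary -/
def IsRationalClass {N m : ℕ} (F : Fin m → CPoly N) (k : ℕ) (w : FormCochain N) : Prop :=
  ∃ (r : SingCochain N ℚ) (b : SingCochain N ℂ),
    (∀ p q, p + q = 2 * k + 1 → ∀ I s v, IsLift F I s v → totD r p q I s = 0) ∧
    ∀ p q, p + q = 2 * k → ∀ I s v, IsLift F I s v →
      formIntegral (w p q I) v =
        (2 * Real.pi * Complex.I) ^ k * (r p q I s : ℂ) + totD b p q I s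

/-- conjugation of a rational function -/
noncomputable def RatFun.conj {N : ℕ} (σ : ℂ ≃+* ℂ) (f : RatFun N) : RatFun N :=
  ⟨map (σ : ℂ →+* ℂ) f.num, f.den⟩

/-- conjugation of a cochain of algebraic forms -/
noncomputable def FormCochain.conj {N : ℕ} (σ : ℂ ≃+* ℂ) (w : FormCochain N) : FormCochain N :=
  fun p q I => (w p q I).map fun x => (x.1.conj σ, fun b => (x.2 b).conj σ)

/-- the equations of the conjugate variety -/
noncomputable def conjEqs {N m : ℕ} (σ : ℂ ≃+* ℂ) (F : Fin m → CPoly N) : Fin m → CPoly N :=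
  fun i => map (σ : ℂ →+* ℂ) (F i)

/-- a smooth projective variety `Y` over `ℂ` with a representative of a class in
`F^k H^{2k}_{dR}(Y/ℂ)` (if it is a cocycle) -/
structure Datum where
  N : ℕ
  m : ℕ
  F : Fin m → CPoly N
  k : ℕ
  w : FormCochain N
  smooth : IsSmoothProjective F
  hodge : IsHodgeCochain k w

end Pool.Agent.AHC
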