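import Mathlib
import Pool.Agent.AHC.Defs

/-!
# Conjugation of the data by automorphisms of `ℂ`
-/

namespace Pool.Agent.AHC

open MvPolynomial
open scoped ContDiff LinearAlgebra.Projectivization

theorem eval_conj (σ : ℂ ≃+* ℂ) {n : ℕ} (z : Fin n → ℂ) (P : MvPolynomial (Fin n) ℂ) :
    eval (fun i => σ (z i)) (map (σ : ℂ →+* ℂ) P) = σ (eval z P) := by
  induction P using MvPolynomial.induction_on with
  | C x => simp
  | add P Q hP hQ => rw [map_add, map_add, hP, hQ, map_add, map_add]
  | mul_X P i hP => rw [map_mul, map_mul, hP, map_X, eval_X, map_mul, map_mul, eval_X]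

theorem map_symm_map (σ : ℂ ≃+* ℂ) {n : ℕ} (P : MvPolynomial (Fin n) ℂ) :
    map (σ : ℂ →+* ℂ) (map (σ.symm : ℂ →+* ℂ) P) = P := by
  rw [map_map]
  have : (σ : ℂ →+* ℂ).comp (σ.symm : ℂ →+* ℂ) = RingHom.id ℂ := by
    ext x
    exact σ.apply_symm_apply x
  rw [this, map_id]

theorem onCone_conj {σ : ℂ ≃+* ℂ} {N m : ℕ} {F : Fin m → CPoly N} {z : Fin (N + 1) → ℂ} :
    OnCone (conjEqs σ F) (fun i => σ (z i)) ↔ OnCone F z := by
  constructor
  · intro h i
    have h1 := h i
    rw [conjEqs, eval_conj, map_eq_zero_iff σ σ.injective] at h1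
    exact h1
  · intro h i
    rw [conjEqs, eval_conj, h i, map_zero]

theorem onCone_conj' {σ : ℂ ≃+* ℂ} {N m : ℕ} {F : Fin m → CPoly N} {z : Fin (N + 1) → ℂ} :
    OnCone (conjEqs σ F) z ↔ OnCone F (fun i => σ.symm (z i)) := by
  have h := onCone_conj (σ := σ) (F := F) (z := fun i => σ.symm (z i))
  simp only [RingEquiv.apply_symm_apply] at h
  exact h

/-- the conjugate of a smooth projective variety is a smooth projective variety -/
theorem IsSmoothProjective.conj {N m : ℕ} {F : Fin m → CPoly N} (h : IsSmoothProjective F)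
    (σ : ℂ ≃+* ℂ) : IsSmoothProjective (conjEqs σ F) where
  homogeneous := fun i => by
    obtain ⟨d, hd⟩ := h.homogeneous i
    exact ⟨d, hd.map _⟩
  nonempty := by
    obtain ⟨z, hz0, hz⟩ := h.nonempty
    refine ⟨fun i => σ (z i), fun h0 => hz0 ?_, onCone_conj.2 hz⟩
    funext i
    have h1 := congrFun h0 i
    exact (map_eq_zero_iff σ σ.injective).1 h1
  irreducible := by
    intro P Q hPQ
    have key : ∀ (P : CPoly N) (z : Fin (N + 1) → ℂ),
        eval (fun i => σ (z i)) P = σ (eval z (map (σ.symm : ℂ →+* ℂ) P)) := by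
      intro P z
      rw [← eval_conj, map_symm_map]
    have h1 := h.irreducible (map (σ.symm : ℂ →+* ℂ) P) (map (σ.symm : ℂ →+* ℂ) Q) (by
      intro z hz
      have h2 := hPQ _ (onCone_conj.2 hz)
      rw [key, map_eq_zero_iff σ σ.injective, map_mul] at h2
      exact h2)
    rcases h1 with h1 | h1
    · left
      intro z hz
      have h2 := h1 _ (onCone_conj'.1 hz)
      have h3 := key P (fun i => σ.symm (z i))
      rw [h2, map_zero] at h3
      simpa only [RingEquiv.apply_symm_apply] using h3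
    · right
      intro z hz
      have h2 := h1 _ (onCone_conj'.1 hz)
      have h3 := key Q (fun i => σ.symm (z i))
      rw [h2, map_zero] at h3
      simpa only [RingEquiv.apply_symm_apply] using h3
  smooth := by
    intro z hz0 hz
    obtain ⟨r, j, g, h1, h2, h3⟩ := h.smooth (fun i => σ.symm (z i)) (fun h0 => hz0 (by
      funext i
      have h1 := congrFun h0 i
      exact (map_eq_zero_iff σ.symm σ.symm.injective).1 h1)) (onCone_conj'.1 hz)
    have hz' : z = fun i => σ (σ.symm (z i)) := by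
      funext i
      exact (σ.apply_symm_apply _).symm
    refine ⟨r, j, map (σ : ℂ →+* ℂ) g, ?_, ?_, ?_⟩
    · rw [Fintype.linearIndependent_iff] at h1 ⊢
      intro c hc
      have h4 := h1 (fun a => σ.symm (c a)) (by
        funext l
        have h5 := congrFun hc l
        simp only [Finset.sum_apply, Pi.smul_apply, smul_eq_mul, Pi.zero_apply] at h5 ⊢
        have h6 := congrArg σ.symm h5
        rw [map_sum, map_zero] at h6
        rw [← h6]
        refine Finset.sum_congr rfl fun a _ => ?_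
        rw [map_mul]
        congr 1
        rw [RingEquiv.eq_symm_apply, ← eval_conj, ← hz', conjEqs, pderiv_map])
      intro a
      exact (map_eq_zero_iff σ.symm σ.symm.injective).1 (h4 a)
    · rw [hz', eval_conj]
      intro h0
      exact h2 ((map_eq_zero_iff σ σ.injective).1 h0)
    · intro i
      have h4 := Ideal.mem_map_of_mem (map (σ : ℂ →+* ℂ)) (h3 i)
      rw [Ideal.map_span, ← Set.range_comp, map_mul] at h4
      exact h4

theorem RatFun.IsRegularOn.conj {N : ℕ} {f : RatFun N} {p : ℕ} {I : Fin (p + 1) → Fin (N + 1)}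
    (h : f.IsRegularOn I) (σ : ℂ ≃+* ℂ) : (f.conj σ).IsRegularOn I :=
  ⟨h.1.map _, h.2⟩

theorem IsHodgeCochain.conj {N k : ℕ} {w : FormCochain N} (h : IsHodgeCochain k w)
    (σ : ℂ ≃+* ℂ) : IsHodgeCochain k (w.conj σ) := by
  constructor
  · intro p q hpq I x hx
    rw [FormCochain.conj, List.mem_map] at hx
    obtain ⟨y, hy, rfl⟩ := hx
    exact ⟨(h.1 p q hpq I y hy).1.conj σ, fun b => ((h.1 p q hpq I y hy).2 b).conj σ⟩
  · intro p q hpq hq I
    rw [FormCochain.conj, h.2 p q hpq hq I, List.map_nil]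

/-- the conjugate datum -/
noncomputable def Datum.conj (σ : ℂ ≃+* ℂ) (d : Datum) : Datum where
  N := d.N
  m := d.m
  F := conjEqs σ d.F
  k := d.k
  w := d.w.conj σ
  smooth := d.smooth.conj σ
  hodge := d.hodge.conj σ

/-- the class of the datum is rational (up to the Tate twist) -/
def Datum.IsRational (d : Datum) : Prop := IsRationalClass d.F d.k d.w

theorem RatFun.conj_conj {N : ℕ} (f : RatFun N) (σ τ : ℂ ≃+* ℂ) :
    (f.conj σ).conj τ = f.conj (σ.trans τ) := by
  simp only [RatFun.conj, map_map]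
  rfl

theorem Datum.conj_conj (d : Datum) (σ τ : ℂ ≃+* ℂ) :
    (d.conj σ).conj τ = d.conj (σ.trans τ) := by
  have h1 : conjEqs τ (conjEqs σ d.F) = conjEqs (σ.trans τ) d.F := by
    funext i
    simp only [conjEqs, map_map]
    rfl
  have h2 : (d.w.conj σ).conj τ = d.w.conj (σ.trans τ) := by
    funext p q I
    simp only [FormCochain.conj, List.map_map, Function.comp_def, RatFun.conj_conj]
  unfold Datum.conj
  simp only [h1, h2]

theorem Datum.conj_refl (d : Datum) : d.conj (RingEquiv.refl ℂ) = d := by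
  have h0 : ((RingEquiv.refl ℂ : ℂ ≃+* ℂ) : ℂ →+* ℂ) = RingHom.id ℂ := rfl
  have h1 : conjEqs (RingEquiv.refl ℂ) d.F = d.F := by
    funext i
    simp only [conjEqs, h0, map_id]
  have h3 : ∀ f : RatFun d.N, f.conj (RingEquiv.refl ℂ) = f := by
    intro f
    simp only [RatFun.conj, h0, map_id]
  have h2 : d.w.conj (RingEquiv.refl ℂ) = d.w := by
    funext p q I
    simp only [FormCochain.conj, h3, List.map_id']
  unfold Datum.conj
  simp only [h1, h2]

theorem map_congr_coeffs {σ τ : ℂ ≃+* ℂ} {n : ℕ} {P : MvPolynomial (Fin n) ℂ}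
    (h : ∀ c ∈ P.coeffs, σ c = τ c) : map (σ : ℂ →+* ℂ) P = map (τ : ℂ →+* ℂ) P := by
  ext m
  rw [coeff_map, coeff_map]
  by_cases h0 : coeff m P = 0
  · rw [h0, map_zero, map_zero]
  · refine h _ ?_
    rw [MvPolynomial.mem_coeffs_iff]
    exact ⟨m, by rwa [mem_support_iff], rfl⟩

/-- rationality of the conjugate depends only on finitely many values of the automorphism -/
theorem Datum.exists_finite (d : Datum) : ∃ A : Set ℂ, A.Finite ∧ ∀ σ τ : ℂ ≃+* ℂ,
    (∀ a ∈ A, σ a = τ a) → (d.conj σ).IsRational → (d.conj τ).IsRational := by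
  let A1 : Set ℂ := ⋃ i, ((d.F i).coeffs : Set ℂ)
  let A2 : Set ℂ := ⋃ p ∈ Finset.range (2 * d.k + 1), ⋃ q ∈ Finset.range (2 * d.k + 1),
    ⋃ I : Fin (p + 1) → Fin (d.N + 1), ⋃ y ∈ {y | y ∈ d.w p q I},
      ((y.1.num.coeffs : Set ℂ) ∪ ⋃ b, ((y.2 b).num.coeffs : Set ℂ))
  refine ⟨A1 ∪ A2, ?_, ?_⟩
  · refine Set.Finite.union (Set.finite_iUnion fun i => Finset.finite_toSet _) ?_
    refine Set.Finite.biUnion (Finset.finite_toSet _) fun p _ => ?_
    refine Set.Finite.biUnion (Finset.finite_toSet _) fun q _ => ?_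
    refine Set.finite_iUnion fun I => ?_
    refine Set.Finite.biUnion (List.finite_toSet _) fun y _ => ?_
    exact (Finset.finite_toSet _).union (Set.finite_iUnion fun b => Finset.finite_toSet _)
  · intro σ τ h hr
    have h1 : conjEqs σ d.F = conjEqs τ d.F := by
      funext i
      refine map_congr_coeffs fun c hc => h c (Or.inl ?_)
      exact Set.mem_iUnion.2 ⟨i, hc⟩
    have h2 : ∀ p q, p + q = 2 * d.k → ∀ I, d.w.conj σ p q I = d.w.conj τ p q I := by
      intro p q hpq I
      simp only [FormCochain.conj]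
      refine List.map_congr_left fun y hy => ?_
      have hmem : ∀ c, c ∈ ((y.1.num.coeffs : Set ℂ) ∪ ⋃ b, ((y.2 b).num.coeffs : Set ℂ)) →
          σ c = τ c := by
        intro c hc
        refine h c (Or.inr ?_)
        simp only [A2, Set.mem_iUnion]
        exact ⟨p, Finset.mem_range.2 (by omega), q, Finset.mem_range.2 (by omega), I, y, hy, hc⟩
      have h3 : y.1.conj σ = y.1.conj τ := by
        simp only [RatFun.conj]
        rw [map_congr_coeffs fun c hc => hmem c (Or.inl hc)]
      have h4 : ∀ b, (y.2 b).conj σ = (y.2 b).conj τ := by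
        intro b
        simp only [RatFun.conj]
        rw [map_congr_coeffs fun c hc => hmem c (Or.inr (Set.mem_iUnion.2 ⟨b, hc⟩))]
      rw [h3]
      simp only [h4]
    obtain ⟨r, b, hr1, hr2⟩ := hr
    change IsRationalClass (conjEqs τ d.F) d.k (d.w.conj τ)
    have hr1' : ∀ p q, p + q = 2 * d.k + 1 → ∀ I s v, IsLift (conjEqs σ d.F) I s v →
      totD r p q I s = 0 := hr1
    have hr2' : ∀ p q, p + q = 2 * d.k → ∀ I s v, IsLift (conjEqs σ d.F) I s v →
      formIntegral (d.w.conj σ p q I) v =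
        (2 * Real.pi * Complex.I) ^ d.k * (r p q I s : ℂ) + totD b p q I s := hr2
    rw [h1] at hr1' hr2'
    refine ⟨r, b, hr1', fun p q hpq I s v hv => ?_⟩
    rw [← h2 p q hpq I]
    exact hr2' p q hpq I s v hv

end Pool.Agent.AHC
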