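import Mathlib
import Pool.Agent.AHC.Conj

/-!
# Complex conjugation preserves rationality
-/

namespace Pool.Agent.AHC

open MvPolynomial
open scoped ContDiff LinearAlgebra.Projectivization ComplexConjugate

/-- coordinatewise complex conjugation -/
noncomputable def cvec (n : ℕ) : (Fin n → ℂ) →ₛₗ[starRingEnd ℂ] (Fin n → ℂ) where
  toFun := fun z i => conj (z i)
  map_add' := fun x y => by
    funext i
    simp
  map_smul' := fun c x => by
    funext i
    simp

theorem cvec_apply {n : ℕ} (z : Fin n → ℂ) (i : Fin n) : cvec n z i = conj (z i) := rfl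

theorem cvec_injective (n : ℕ) : Function.Injective (cvec n) := by
  intro x y h
  funext i
  have h1 := congrFun h i
  rw [cvec_apply, cvec_apply] at h1
  exact star_injective h1

theorem cvec_cvec {n : ℕ} (z : Fin n → ℂ) : cvec n (cvec n z) = z := by
  funext i
  simp [cvec_apply]

/-- complex conjugation on projective space -/
noncomputable def cproj (N : ℕ) : ℙ ℂ (Fin (N + 1) → ℂ) → ℙ ℂ (Fin (N + 1) → ℂ) :=
  Projectivization.map (cvec (N + 1)) (cvec_injective _)

theorem cproj_mk {N : ℕ} (z : Fin (N + 1) → ℂ) (hz : z ≠ 0) :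
    ∃ h : cvec (N + 1) z ≠ 0, cproj N (Projectivization.mk ℂ z hz) =
      Projectivization.mk ℂ (cvec (N + 1) z) h :=
  ⟨fun h => hz (cvec_injective _ (by rw [h, map_zero])), rfl⟩

theorem conjEqs_cc_cc {N m : ℕ} (F : Fin m → CPoly N) : conjEqs cc (conjEqs cc F) = F := by
  funext i
  simp only [conjEqs, map_map]
  have : ((cc : ℂ →+* ℂ).comp (cc : ℂ →+* ℂ)) = RingHom.id ℂ := by
    ext x
    exact cc_cc x
  rw [this, map_id]

/-- the conjugate of a simplex of the conjugate variety -/
theorem IsLift.cc {N m : ℕ} {F : Fin m → CPoly N} {p : ℕ} {I : Fin (p + 1) → Fin (N + 1)}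
    {q : ℕ} {s : Simplex N q} {v : (Fin (q + 1) → ℝ) → (Fin (N + 1) → ℂ)}
    (h : IsLift (conjEqs cc F) I s v) :
    IsLift F I (fun t => cproj N (s t)) (fun t => cvec (N + 1) (v t)) where
  smooth := by
    rw [contDiff_pi]
    intro i
    have h1 : ContDiff ℝ ∞ fun t => v t i := (contDiff_pi.1 h.smooth) i
    exact Complex.conjCLE.contDiff.comp h1
  onCone := by
    intro t ht
    have h1 := h.onCone t ht
    have h2 := (onCone_conj (σ := Pool.Agent.AHC.cc) (F := conjEqs Pool.Agent.AHC.cc F)
      (z := v t)).2 h1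
    rw [conjEqs_cc_cc] at h2
    exact h2
  inOpen := by
    intro t ht a h0
    refine h.inOpen t ht a ?_
    rw [cvec_apply] at h0
    exact (map_eq_zero_iff (starRingEnd ℂ) star_injective).1 h0
  lifts := by
    intro t
    obtain ⟨h1, h2⟩ := h.lifts t
    obtain ⟨h3, h4⟩ := cproj_mk (v t) h1
    refine ⟨h3, ?_⟩
    rw [h2]
    exact h4

theorem RatFun.val_cc {N : ℕ} (f : RatFun N) (z : Fin (N + 1) → ℂ) :
    (f.conj cc).val z = conj (f.val (cvec (N + 1) z)) := by
  have h1 : eval z (map (cc : ℂ →+* ℂ) f.num) = conj (eval (cvec (N + 1) z) f.num) := by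
    have h2 := eval_conj cc (cvec (N + 1) z) f.num
    have h3 : (fun i => cc (cvec (N + 1) z i)) = z := by
      funext i
      rw [cvec_apply]
      exact cc_cc (z i)
    rw [h3] at h2
    exact h2
  unfold RatFun.val
  rw [map_div₀, map_prod]
  simp only [RatFun.conj]
  rw [h1]
  congr 1
  refine Finset.prod_congr rfl fun i _ => ?_
  rw [map_pow, cvec_apply, Complex.conj_conj]

theorem fderiv_conj_comp {E : Type} [NormedAddCommGroup E] [NormedSpace ℝ E] (g : E → ℂ) (x e : E) :
    fderiv ℝ (fun s => conj (g s)) x e = conj (fderiv ℝ g x e) := by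
  have h := Complex.conjCLE.comp_fderiv (f := g) (x := x)
  have h1 : (fun s => conj (g s)) = Complex.conjCLE ∘ g := by
    funext s
    simp
  rw [h1, h]
  simp

theorem termIntegral_cc {N q : ℕ} (f : RatFun N) (g : Fin q → RatFun N)
    (v : (Fin (q + 1) → ℝ) → (Fin (N + 1) → ℂ)) :
    termIntegral (f.conj cc) (fun b => (g b).conj cc) v =
      conj (termIntegral f g (fun t => cvec (N + 1) (v t))) := by
  unfold termIntegral
  rw [← integral_conj]
  refine MeasureTheory.integral_congr_ae (Filter.Eventually.of_forall fun t => ?_)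
  simp only []
  rw [map_mul, RatFun.val_cc]
  congr 1
  rw [RingHom.map_det]
  congr 1
  ext a b
  simp only [Matrix.of_apply, RingHom.mapMatrix_apply, Matrix.map_apply]
  rw [← fderiv_conj_comp]
  congr 2
  funext s
  rw [RatFun.val_cc]

theorem formIntegral_cc {N q : ℕ} (w : AlgForm N q)
    (v : (Fin (q + 1) → ℝ) → (Fin (N + 1) → ℂ)) :
    formIntegral (w.map fun x => (x.1.conj cc, fun b => (x.2 b).conj cc)) v =
      conj (formIntegral w (fun t => cvec (N + 1) (v t))) := by
  unfold formIntegral
  rw [List.map_map, map_list_sum, List.map_map]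
  congr 1
  refine List.map_congr_left fun x _ => ?_
  simp only [Function.comp_apply]
  exact termIntegral_cc _ _ _

theorem totD_cc {N : ℕ} {R S : Type} [CommRing R] [CommRing S] (φ : R →+* S) (c : S)
    (b : SingCochain N R) (p q : ℕ) (I : Fin (p + 1) → Fin (N + 1)) (s : Simplex N q) :
    totD (fun p q I (s : Simplex N q) => c * φ (b p q I fun t => cproj N (s t))) p q I s =
      c * φ (totD b p q I fun t => cproj N (s t)) := by
  unfold totD
  rw [map_add, map_mul, map_pow, map_neg, map_one, mul_add]
  congr 1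
  · cases p with
    | zero => simp [cechD]
    | succ p =>
      simp only [cechD]
      rw [map_sum, Finset.mul_sum]
      refine Finset.sum_congr rfl fun a _ => ?_
      rw [map_mul, map_pow, map_neg, map_one]
      ring
  · cases q with
    | zero => simp [singD]
    | succ q =>
      simp only [singD]
      rw [map_sum, Finset.mul_sum, Finset.mul_sum, Finset.mul_sum]
      refine Finset.sum_congr rfl fun a _ => ?_
      rw [map_mul, map_pow, map_neg, map_one]
      have : (fun t => cproj N ((s ∘ face a) t)) = (fun t => cproj N (s t)) ∘ face a := rfl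
      rw [this]
      ring

/-- complex conjugation preserves rational classes -/
theorem IsRationalClass.cc {N m : ℕ} {F : Fin m → CPoly N} {k : ℕ} {w : FormCochain N}
    (h : IsRationalClass F k w) : IsRationalClass (conjEqs cc F) k (w.conj cc) := by
  obtain ⟨r, b, h1, h2⟩ := h
  refine ⟨fun p q I s => (-1) ^ k * (RingHom.id ℚ) (r p q I fun t => cproj N (s t)),
    fun p q I s => 1 * (starRingEnd ℂ) (b p q I fun t => cproj N (s t)), ?_, ?_⟩
  · intro p q hpq I s v hv
    rw [totD_cc, h1 p q hpq I _ _ hv.cc, map_zero, mul_zero]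
  · intro p q hpq I s v hv
    rw [totD_cc]
    simp only [FormCochain.conj]
    rw [formIntegral_cc, h2 p q hpq I _ _ hv.cc, map_add, map_mul, map_pow]
    congr 1
    · have h3 : (starRingEnd ℂ) (2 * (Real.pi : ℂ) * Complex.I) =
          -1 * (2 * (Real.pi : ℂ) * Complex.I) := by
        rw [map_mul, map_mul, Complex.conj_I, Complex.conj_ofReal, map_ofNat]
        ring
      rw [h3, mul_pow]
      simp only [RingHom.id_apply]
      push_cast
      simp only [map_ratCast]
      ring
    · rw [one_mul]

theorem Datum.IsRational.cc {d : Datum} (h : d.IsRational) : (d.conj cc).IsRational :=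
  IsRationalClass.cc h

end Pool.Agent.AHC
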