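import Mathlib
import Pool.Agent.AHC.CC

/-!
# The automorphisms for which the de Rham part holds form a closed submonoid
-/

namespace Pool.Agent.AHC

/-- the class `C` of data is stable under conjugation by all automorphisms of `ℂ` -/
def Stable (C : Set Datum) : Prop := ∀ (σ : ℂ ≃+* ℂ), ∀ d ∈ C, d.conj σ ∈ C

/-- **Q1 (de Rham part) for the automorphism `σ` and the class `C`**: the conjugate by `σ` of
every rational class in `F^k H^{2k}_dR` from the class `C` is rational -/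
def DeRhamPart (C : Set Datum) (σ : ℂ ≃+* ℂ) : Prop :=
  ∀ d ∈ C, d.IsRational → (d.conj σ).IsRational

theorem isClosedMonoid_deRhamPart {C : Set Datum} (hC : Stable C) :
    IsClosedMonoid {σ | DeRhamPart C σ} where
  one_mem := fun d _ h => by rwa [Datum.conj_refl]
  mul_mem := fun σ hσ τ hτ d hd h => by
    rw [← Datum.conj_conj]
    exact hτ _ (hC σ d hd) (hσ d hd h)
  closed := fun σ h d hd hr => by
    obtain ⟨A, hA, hAd⟩ := d.exists_finite
    obtain ⟨τ, hτ, hτσ⟩ := h A hA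
    exact hAd τ σ hτσ (hτ d hd hr)

theorem cc_mem_deRhamPart (C : Set Datum) : cc ∈ {σ | DeRhamPart C σ} :=
  fun _ _ h => h.cc

/-- the reduction statements for a set `H` of automorphisms of `ℂ` -/
structure Reduction (H : Set (ℂ ≃+* ℂ)) : Prop where
  /-- it is enough to consider the automorphisms which fix `T` -/
  fix_T : ∀ T : Set ℂ, T.Infinite → Disjoint T (cc '' T) →
    AlgebraicIndependent ℚ (Subtype.val : ↥(T ∪ cc '' T) → ℂ) →
    ((∀ σ : ℂ ≃+* ℂ, (∀ z ∈ T, σ z = z) → σ ∈ H) ↔ ∀ σ : ℂ ≃+* ℂ, σ ∈ H)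
  /-- for a field `K` algebraic over `ℚ(T)`, the automorphisms which fix `K` are as good as those
  which fix the real elements of `K` -/
  fix_K : ∀ T : Set ℂ, T.Infinite → Disjoint T (cc '' T) →
    AlgebraicIndependent ℚ (Subtype.val : ↥(T ∪ cc '' T) → ℂ) →
    ∀ K : Subfield ℂ, (∀ z ∈ K, IsAlgebraic (Algebra.adjoin ℚ T) z) →
    ((∀ σ : ℂ ≃+* ℂ, (∀ z ∈ K, σ z = z) → σ ∈ H) ↔
      ∀ σ : ℂ ≃+* ℂ, (∀ z ∈ K, z.im = 0 → σ z = z) → σ ∈ H)
  /-- the conjugates of complex conjugation by all automorphisms of `ℂ` -/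
  conj_all : (∀ τ : ℂ ≃+* ℂ, conjBy τ ∈ H) ↔
    ∀ σ : ℂ ≃+* ℂ, (∀ z, TotallyReal z → σ z = z) → σ ∈ H
  /-- the conjugates of complex conjugation by the automorphisms over the algebraic numbers -/
  conj_alg : (∀ τ : ℂ ≃+* ℂ, (∀ z, IsAlgebraic ℚ z → τ z = z) → conjBy τ ∈ H) ↔
    ∀ σ : ℂ ≃+* ℂ, (∀ z, IsAlgebraic ℚ z → z.im = 0 → σ z = z) → σ ∈ H
  /-- if `H` contains the automorphisms over the algebraic numbers, then `H` consists of all
  automorphisms which fix a certain subfield of the real algebraic numbers -/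
  galois : (∀ σ : ℂ ≃+* ℂ, (∀ z, IsAlgebraic ℚ z → σ z = z) → σ ∈ H) →
    ∃ K : Subfield ℂ, (∀ z ∈ K, IsAlgebraic ℚ z ∧ z.im = 0) ∧
      H = {σ | ∀ z ∈ K, σ z = z}

theorem reduction {H : Set (ℂ ≃+* ℂ)} (hH : IsClosedMonoid H) (hc : cc ∈ H) : Reduction H where
  fix_T := fun _ h1 h2 h3 =>
    ⟨fun h => Pool.Agent.AHC.fix_T hH hc h1 h2 h3 h, fun h σ _ => h σ⟩
  fix_K := fun T h1 h2 h3 K hK =>
    ⟨fun h σ hσ => fix_subfield hH hc h1 h2 h3 K hK h σ fun z hz hz' =>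
      hσ z hz (cc_eq_self_iff.1 hz'), fun h σ hσ => h σ fun z hz _ => hσ z hz⟩
  conj_all := conjBy_tr hH
  conj_alg := conjBy_alg hH
  galois := fun h => by
    let K : Subfield ℂ :=
      { carrier := {z | z ∈ cl ∅ ∧ ∀ g ∈ H, g z = z}
        mul_mem' := fun {a b} ha hb =>
          ⟨(clF ∅).mul_mem ha.1 hb.1, fun g hg => by rw [map_mul, ha.2 g hg, hb.2 g hg]⟩
        one_mem' := ⟨(clF ∅).one_mem, fun g _ => map_one g⟩
        add_mem' := fun {a b} ha hb =>
          ⟨(clF ∅).add_mem ha.1 hb.1, fun g hg => by rw [map_add, ha.2 g hg, hb.2 g hg]⟩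
        zero_mem' := ⟨(clF ∅).zero_mem, fun g _ => map_zero g⟩
        neg_mem' := fun {a} ha =>
          ⟨(clF ∅).neg_mem ha.1, fun g hg => by rw [map_neg, ha.2 g hg]⟩
        inv_mem' := fun a ha =>
          ⟨(clF ∅).inv_mem ha.1, fun g hg => by rw [map_inv₀, ha.2 g hg]⟩ }
    refine ⟨K, fun z hz => ⟨isAlgebraic_of_mem_cl_empty hz.1, cc_eq_self_iff.1 (hz.2 cc hc)⟩, ?_⟩
    ext σ
    constructor
    · intro hσ z hz
      exact hz.2 σ hσ
    · intro hσ
      exact galois_closed hH (fun σ hσ => h σ fun z hz => hσ z (mem_cl_empty hz)) σ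
        fun z hz hz' => hσ z ⟨hz, hz'⟩

end Pool.Agent.AHC
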