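import Mathlib
import Pool.Agent.AHC.Abs

/-!
# Automorphisms over the algebraic numbers as limits of products of four conjugates of complex
conjugation by automorphisms which fix `T`
-/

namespace Pool.Agent.AHC

theorem SeqInd.of_subset_cl {X Y : Set ℂ} (h : Y ⊆ cl X) {n : ℕ} {b : Fin n → ℂ}
    (hb : SeqInd X b) : SeqInd Y b := by
  intro i hi
  refine hb i (cl_subset_iff.2 ?_ hi)
  rintro z (hz | hz)
  · exact cl_mono Set.subset_union_left (h hz)
  · exact subset_cl _ (Or.inr hz)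

theorem image_fix {X : Set ℂ} {α : ℂ ≃+* ℂ} (h : ∀ z ∈ X, α z = z) : α '' X = X := by
  ext z
  constructor
  · rintro ⟨y, hy, rfl⟩
    rw [h y hy]
    exact hy
  · intro hz
    exact ⟨z, hz, h z hz⟩

theorem symm_fix {X : Set ℂ} {α : ℂ ≃+* ℂ} (h : ∀ z ∈ X, α z = z) : ∀ z ∈ X, α.symm z = z := by
  intro z hz
  rw [RingEquiv.symm_apply_eq, h z hz]

section

variable {T : Set ℂ} (hinf : T.Infinite) (hd : Disjoint T (cc '' T))
  (hI : MC.Indep (T ∪ cc '' T))

include hinf hd hI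

/-- a family which is real and independent over `T` and finitely many conjugates of elements of
`T` -/
theorem exists_real_family {T₀ : Set ℂ} (hT₀ : T₀ ⊆ T) (hf : T₀.Finite) (n : ℕ) :
    ∃ u : Fin n → ℂ, SeqInd (T ∪ cc '' T₀) u ∧ ∀ i, cc (u i) = u i := by
  have hinf' := hinf.sdiff hf
  let e : Fin n → ℂ := fun i => hinf'.natEmbedding _ (i : ℕ)
  have he : ∀ i, e i ∈ T \ T₀ := fun i => (hinf'.natEmbedding _ (i : ℕ)).2
  have hinj : Function.Injective e := by
    intro i j hij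
    exact Fin.ext ((hinf'.natEmbedding _).injective (Subtype.ext hij))
  have h1 : SeqInd (T ∪ cc '' T₀) (fun i => cc (e i)) := by
    refine SeqInd.of_indep (fun i j hij => hinj (cc.injective hij)) (hI.subset ?_) ?_
    · rintro z ((hz | ⟨y, hy, rfl⟩) | ⟨i, rfl⟩)
      · exact Or.inl hz
      · exact Or.inr ⟨y, hT₀ hy, rfl⟩
      · exact Or.inr ⟨e i, (he i).1, rfl⟩
    · rw [Set.disjoint_left]
      rintro z (hz | ⟨y, hy, rfl⟩) ⟨i, hi⟩
      · exact Set.disjoint_left.1 hd hz ⟨e i, (he i).1, hi⟩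
      · exact (he i).2 (by rw [cc.injective hi]; exact hy)
  refine ⟨fun i => cc (e i) + e i, h1.shift (fun i => subset_cl _ (Or.inl (he i).1)), ?_⟩
  intro i
  rw [map_add, cc_cc, add_comm]

/-- **general position by one conjugate of complex conjugation** -/
theorem generic_one {A : Set ℂ} (hA : A.Finite) :
    ∃ (τ : ℂ ≃+* ℂ) (m : ℕ) (w : Fin m → ℂ), (∀ z ∈ cl T, τ z = z) ∧ SeqInd T w ∧
      conjBy τ '' A ⊆ cl (Set.range w) := by
  obtain ⟨n, b, hb1, -, hb3⟩ := exists_basis T hA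
  obtain ⟨T₀, hT₀, hT₀f, hAT₀⟩ := exists_finite_sub hA hb3
  obtain ⟨u, hu1, hu2⟩ := exists_real_family hinf hd hI hT₀ hT₀f n
  obtain ⟨τ, hτ1, hτ2⟩ := exists_move_seq b u hb1 (hu1.mono Set.subset_union_left)
  have hX : MC.Indep (T ∪ cc '' T₀) := hI.subset
    (Set.union_subset_union_right _ (Set.image_mono hT₀))
  obtain ⟨h2, h3⟩ := hu1.indep hX
  have hWf : (cc '' T₀ ∪ Set.range u).Finite := (hT₀f.image _).union (Set.finite_range u)
  obtain ⟨m, c, hc1, hc2, hc3⟩ := exists_basis ∅ hWf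
  rw [Set.empty_union] at hc3
  have hW : MC.Indep (T ∪ (cc '' T₀ ∪ Set.range u)) := by rwa [← Set.union_assoc]
  have hWd : Disjoint T (cc '' T₀ ∪ Set.range u) := by
    rw [Set.disjoint_union_right]
    exact ⟨hd.mono_right (Set.image_mono hT₀), h3.mono_left Set.subset_union_left⟩
  have hc4 : SeqInd T c := SeqInd.of_indep hc1.injective
    (hW.subset (Set.union_subset_union_right _ hc2)) (hWd.mono_right hc2)
  have hτT : ∀ z ∈ T, τ z = z := fun z hz => hτ1 z (subset_cl _ hz)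
  refine ⟨τ, m, fun i => τ.symm (c i), hτ1, ?_, ?_⟩
  · have := hc4.map τ.symm
    rwa [image_fix (symm_fix hτT)] at this
  · have h4 : τ '' A ⊆ cl (T₀ ∪ Set.range u) := by
      rw [← image_cl_fix τ (fun z hz => hτT z (hT₀ hz)) hτ2]
      exact Set.image_mono hAT₀
    have h5 : cc '' (τ '' A) ⊆ cl (Set.range c) := by
      refine (Set.image_mono h4).trans ?_
      rw [image_cl, cl_subset_iff, Set.image_union]
      rintro z (hz | ⟨y, ⟨i, rfl⟩, rfl⟩)
      · exact hc3 (Or.inl hz)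
      · rw [hu2 i]
        exact hc3 (Or.inr ⟨i, rfl⟩)
    have h6 : conjBy τ '' A = τ.symm '' (cc '' (τ '' A)) := by
      rw [← Set.image_comp, ← Set.image_comp]
      rfl
    rw [h6]
    refine (Set.image_mono h5).trans ?_
    rw [image_cl, ← Set.range_comp]
    rfl

/-- families independent over `T` and a finite set -/
theorem exists_over {F : Set ℂ} (hF : F.Finite) (n : ℕ) : ∃ x : Fin n → ℂ, SeqInd (T ∪ F) x := by
  obtain ⟨m, g, hg1, -, hg3⟩ := exists_basis (T ∪ cc '' T) hF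
  obtain ⟨h2, h3⟩ := hg1.indep hI
  have hF' : F ⊆ cl (cc '' T ∪ (T ∪ Set.range g)) := by
    refine hg3.trans (cl_mono ?_)
    rintro z ((hz | hz) | hz)
    · exact Or.inr (Or.inl hz)
    · exact Or.inl hz
    · exact Or.inr (Or.inr hz)
  obtain ⟨S, hS, hSf, hFS⟩ := exists_finite_sub hF hF'
  have hinf' : (cc '' T \ S).Infinite := (hinf.image cc.injective.injOn).sdiff hSf
  let x : Fin n → ℂ := fun i => hinf'.natEmbedding _ (i : ℕ)
  have hx : ∀ i, x i ∈ cc '' T \ S := fun i => (hinf'.natEmbedding _ (i : ℕ)).2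
  have hinj : Function.Injective x := by
    intro i j hij
    exact Fin.ext ((hinf'.natEmbedding _).injective (Subtype.ext hij))
  refine ⟨x, ?_⟩
  have h4 : SeqInd (S ∪ (T ∪ Set.range g)) x := by
    refine SeqInd.of_indep hinj (h2.subset ?_) ?_
    · rintro z ((hz | hz | hz) | ⟨i, rfl⟩)
      · exact Or.inl (Or.inr (hS hz))
      · exact Or.inl (Or.inl hz)
      · exact Or.inr hz
      · exact Or.inl (Or.inr (hx i).1)
    · rw [Set.disjoint_left]
      rintro z hz ⟨i, rfl⟩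
      rcases hz with hz | hz | hz
      · exact (hx i).2 hz
      · exact Set.disjoint_left.1 hd hz (hx i).1
      · exact Set.disjoint_left.1 h3 (Or.inr (hx i).1) hz
  refine h4.of_subset_cl ?_
  rintro z (hz | hz)
  · exact subset_cl _ (Or.inr (Or.inl hz))
  · exact hFS hz

/-- a family which is independent over `T` together with its conjugate -/
theorem exists_conj_over (n : ℕ) : ∃ s : Fin n → ℂ, SeqInd T s ∧
    SeqInd (T ∪ Set.range s) (fun i => cc (s i)) := by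
  let e : ℕ → ℂ := fun i => hinf.natEmbedding _ i
  have he : ∀ i, e i ∈ T := fun i => (hinf.natEmbedding _ i).2
  have hinj : Function.Injective e := by
    intro i j hij
    exact (hinf.natEmbedding _).injective (Subtype.ext hij)
  let f : Fin n → ℂ := fun i => cc (e (2 * i))
  let g : Fin n → ℂ := fun i => cc (e (2 * i + 1))
  have hf : SeqInd T f := by
    refine SeqInd.of_indep (fun i j hij => ?_) (hI.subset ?_) (hd.mono_right ?_)
    · have h1 := hinj (cc.injective hij)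
      exact Fin.ext (by omega)
    · refine Set.union_subset_union_right _ ?_
      rintro _ ⟨i, rfl⟩
      exact ⟨_, he _, rfl⟩
    · rintro _ ⟨i, rfl⟩
      exact ⟨_, he _, rfl⟩
  have hg : SeqInd (T ∪ Set.range f) g := by
    refine SeqInd.of_indep (fun i j hij => ?_) (hI.subset ?_) ?_
    · have h1 := hinj (cc.injective hij)
      exact Fin.ext (by omega)
    · rintro z ((hz | ⟨i, rfl⟩) | ⟨i, rfl⟩)
      · exact Or.inl hz
      · exact Or.inr ⟨_, he _, rfl⟩
      · exact Or.inr ⟨_, he _, rfl⟩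
    · rw [Set.disjoint_left]
      rintro z (hz | ⟨i, rfl⟩) ⟨j, hj⟩
      · exact Set.disjoint_left.1 hd hz ⟨_, he _, hj⟩
      · have h1 := hinj (cc.injective hj)
        omega
  let s : Fin n → ℂ := fun i => f i + e (2 * i + 1)
  have hs : ∀ i, cc (s i) = g i + e (2 * i) := by
    intro i
    simp only [s, f, g, map_add, cc_cc]
    rw [add_comm]
  refine ⟨s, hf.shift (fun i => subset_cl _ (he _)), ?_⟩
  have h1 : SeqInd (T ∪ Set.range s) g := by
    refine hg.of_subset_cl ?_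
    rintro z (hz | ⟨i, rfl⟩)
    · exact subset_cl _ (Or.inl hz)
    · exact (clF _).add_mem (subset_cl _ (Or.inr ⟨i, rfl⟩)) (subset_cl _ (Or.inl (he _)))
  have h2 := h1.shift (g := fun i => e (2 * i)) (fun i => subset_cl _ (Or.inl (he _)))
  have h3 : (fun i => cc (s i)) = fun i => g i + e (2 * i) := funext hs
  rw [h3]
  exact h2

/-- **two conjugates of complex conjugation on sets in general position** -/
theorem generic_two {A : Set ℂ} (hA : A.Finite) (ψ : ℂ ≃+* ℂ) (hψ : ∀ z ∈ cl ∅, ψ z = z)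
    {m m' : ℕ} {w : Fin m → ℂ} {w' : Fin m' → ℂ} (hw : SeqInd T w) (hw' : SeqInd T w')
    (hAw : A ⊆ cl (Set.range w)) (hAw' : ψ '' A ⊆ cl (Set.range w')) :
    ∃ τ τ' : ℂ ≃+* ℂ, (∀ z ∈ cl T, τ z = z) ∧ (∀ z ∈ cl T, τ' z = z) ∧
      ∀ a ∈ A, conjBy τ' (conjBy τ a) = ψ a := by
  have hT : MC.Indep T := hI.subset Set.subset_union_left
  obtain ⟨n, b, hb1, hb2, hb3⟩ := exists_basis ∅ hA
  rw [Set.empty_union] at hb3
  have hbi : MC.Indep (Set.range b) := by
    have := (hb1.indep MC.empty_indep).1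
    rwa [Set.empty_union] at this
  have hψb1 : SeqInd ∅ (fun i => ψ (b i)) := by
    have := hb1.map ψ
    rwa [Set.image_empty] at this
  have hψbi : MC.Indep (Set.range fun i => ψ (b i)) := by
    have := (hψb1.indep MC.empty_indep).1
    rwa [Set.empty_union] at this
  have hψbA : (Set.range fun i => ψ (b i)) ⊆ ψ '' A := by
    rintro _ ⟨i, rfl⟩
    exact ⟨b i, hb2 ⟨i, rfl⟩, rfl⟩
  obtain ⟨h1, h2⟩ := hw.indep hT
  obtain ⟨h3, h4⟩ := indep_transfer h1 h2 (hb2.trans hAw) hbi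
  obtain ⟨h1', h2'⟩ := hw'.indep hT
  obtain ⟨h3', h4'⟩ := indep_transfer h1' h2' (hψbA.trans hAw') hψbi
  have hbT : SeqInd T b := SeqInd.of_indep hb1.injective h3 h4
  obtain ⟨x, hx⟩ := exists_over hinf hd hI
    ((Set.finite_range b).union (Set.finite_range fun i => ψ (b i))) n
  have hxb : SeqInd (T ∪ Set.range b) x := hx.mono
    (Set.union_subset_union_right _ Set.subset_union_left)
  have hxψ : SeqInd (T ∪ Set.range fun i => ψ (b i)) x := hx.mono
    (Set.union_subset_union_right _ Set.subset_union_right)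
  have hswap : ∀ c : Fin n → ℂ, SeqInd ∅ c → MC.Indep (T ∪ Set.range c) →
      Disjoint T (Set.range c) → SeqInd (T ∪ Set.range c) x → SeqInd (T ∪ Set.range x) c := by
    intro c hc h5 h6 h7
    obtain ⟨h8, h9⟩ := h7.indep h5
    refine SeqInd.of_indep hc.injective ?_ ?_
    · rw [Set.union_assoc, Set.union_comm (Set.range x), ← Set.union_assoc]
      exact h8
    · rw [Set.disjoint_union_left]
      exact ⟨h6, (h9.mono_left Set.subset_union_right).symm⟩
  have hbx : SeqInd (T ∪ Set.range x) b := hswap b hb1 h3 h4 hxb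
  have hψbx : SeqInd (T ∪ Set.range x) (fun i => ψ (b i)) := hswap _ hψb1 h3' h4' hxψ
  obtain ⟨s, hs1, hs2⟩ := exists_conj_over hinf hd hI n
  obtain ⟨α, hα1, hα2⟩ := exists_move_seq b s hbT hs1
  have hαT : ∀ z ∈ T, α z = z := fun z hz => hα1 z (subset_cl _ hz)
  have hαx : SeqInd (T ∪ Set.range s) (fun i => α (x i)) := by
    have h5 := hxb.map α
    rw [Set.image_union, image_fix hαT, ← Set.range_comp] at h5
    have h6 : (α : ℂ → ℂ) ∘ b = s := funext hα2
    rwa [h6] at h5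
  obtain ⟨β, hβ1, hβ2⟩ := exists_move_seq _ _ hαx hs2
  let τ : ℂ ≃+* ℂ := α.trans β
  have hτT : ∀ z ∈ cl T, τ z = z := by
    intro z hz
    change β (α z) = z
    rw [hα1 z hz, hβ1 z (cl_mono Set.subset_union_left hz)]
  have hτb : ∀ i, τ (b i) = s i := by
    intro i
    change β (α (b i)) = s i
    rw [hα2, hβ1 _ (subset_cl _ (Or.inr ⟨i, rfl⟩))]
  have hτx : ∀ i, τ (x i) = cc (s i) := hβ2
  have hιb : ∀ i, conjBy τ (b i) = x i := by
    intro i
    rw [conjBy_apply, hτb, ← hτx, RingEquiv.symm_apply_apply]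
  obtain ⟨γ, hγ1, hγ2⟩ := glue hbx.indOver hψbx.indOver ψ hψ hA hb3 (by
    refine (Set.image_mono hb3).trans ?_
    rw [image_cl, ← Set.range_comp]
    rfl)
  have hιA : ∀ a ∈ A, conjBy τ a ∈ cl (Set.range x) := by
    intro a ha
    have h5 := map_mem_cl (conjBy τ) (hb3 ha)
    rw [← Set.range_comp] at h5
    have h6 : (conjBy τ : ℂ → ℂ) ∘ b = x := funext hιb
    rwa [h6] at h5
  refine ⟨τ, γ.symm.trans τ, hτT, ?_, ?_⟩
  · intro z hz
    have h5 : γ.symm z = z := symm_fix hγ1 z (cl_mono Set.subset_union_left hz)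
    rw [RingEquiv.trans_apply, h5, hτT z hz]
  · intro a ha
    have h5 : γ.symm (conjBy τ a) = conjBy τ a :=
      symm_fix hγ1 _ (cl_mono Set.subset_union_right (hιA a ha))
    have h6 : conjBy (γ.symm.trans τ) (conjBy τ a) =
        γ (τ.symm (cc (τ (γ.symm (conjBy τ a))))) := rfl
    rw [h6, h5, conjBy_apply, RingEquiv.apply_symm_apply, cc_cc, RingEquiv.symm_apply_apply]
    exact hγ2 a ha

/-- **every automorphism over the algebraic numbers agrees on any finite set with a product of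
four conjugates of complex conjugation by automorphisms which fix `cl T`** -/
theorem four_conjugates {A : Set ℂ} (hA : A.Finite) (σ : ℂ ≃+* ℂ)
    (hσ : ∀ z ∈ cl ∅, σ z = z) :
    ∃ τ₁ τ₂ τ₃ τ₄ : ℂ ≃+* ℂ, (∀ z ∈ cl T, τ₁ z = z) ∧ (∀ z ∈ cl T, τ₂ z = z) ∧
      (∀ z ∈ cl T, τ₃ z = z) ∧ (∀ z ∈ cl T, τ₄ z = z) ∧
      ∀ a ∈ A, conjBy τ₄ (conjBy τ₃ (conjBy τ₂ (conjBy τ₁ a))) = σ a := by
  obtain ⟨τ₁, m, w, h1, h2, h3⟩ := generic_one hinf hd hI hA
  obtain ⟨τ₄, m', w', h1', h2', h3'⟩ := generic_one hinf hd hI (hA.image σ)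
  have hinv : ∀ (τ : ℂ ≃+* ℂ) (z : ℂ), conjBy τ (conjBy τ z) = z := by
    intro τ z
    rw [conjBy_apply, conjBy_apply, RingEquiv.apply_symm_apply, cc_cc,
      RingEquiv.symm_apply_apply]
  let ψ : ℂ ≃+* ℂ := ((conjBy τ₁).trans σ).trans (conjBy τ₄)
  have hψa : ∀ z, ψ z = conjBy τ₄ (σ (conjBy τ₁ z)) := fun _ => rfl
  have hk : ∀ (τ : ℂ ≃+* ℂ), (∀ z ∈ cl T, τ z = z) → ∀ z ∈ cl ∅, conjBy τ z = cc z := by
    intro τ hτ z hz
    have h4 : τ z = z := hτ z (cl_mono (Set.empty_subset _) hz)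
    have h5 : τ (cc z) = cc z := hτ _ (cl_mono (Set.empty_subset _) (map_cl_empty cc hz))
    rw [conjBy_apply, h4, RingEquiv.symm_apply_eq, h5]
  have hψ : ∀ z ∈ cl ∅, ψ z = z := by
    intro z hz
    rw [hψa, hk τ₁ h1 z hz, hσ _ (map_cl_empty cc hz), hk τ₄ h1' _ (map_cl_empty cc hz), cc_cc]
  obtain ⟨τ₂, τ₃, h4, h5, h6⟩ := generic_two hinf hd hI (hA.image (conjBy τ₁)) ψ hψ h2 h2' h3 (by
    have : ψ '' (conjBy τ₁ '' A) = conjBy τ₄ '' (σ '' A) := by
      rw [← Set.image_comp, ← Set.image_comp]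
      refine Set.image_congr fun a _ => ?_
      change ψ (conjBy τ₁ a) = conjBy τ₄ (σ a)
      rw [hψa, hinv]
    rw [this]
    exact h3')
  refine ⟨τ₁, τ₂, τ₃, τ₄, h1, h4, h5, h1', fun a ha => ?_⟩
  rw [h6 _ ⟨a, ha, rfl⟩, hψa, hinv, hinv]

end

/-- **conjugates of complex conjugation by automorphisms which fix `T` and a set `L` of algebraic
numbers** -/
theorem conjBy_gen {H : Set (ℂ ≃+* ℂ)} (hH : IsClosedMonoid H) {T : Set ℂ} (hinf : T.Infinite)
    (hd : Disjoint T (cc '' T)) (hI : MC.Indep (T ∪ cc '' T)) (L : Set ℂ)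
    (hL : ∀ z ∈ L, IsAlgebraic ℚ z) :
    (∀ τ : ℂ ≃+* ℂ, (∀ z ∈ T, τ z = z) → (∀ z ∈ L, τ z = z) → conjBy τ ∈ H) ↔
      ∀ σ : ℂ ≃+* ℂ, (∀ z, IsAlgebraic ℚ z →
        (∀ τ : ℂ ≃+* ℂ, (∀ y ∈ L, τ y = y) → (τ z).im = 0) → σ z = z) → σ ∈ H := by
  constructor
  · intro h σ hσ
    have h' : ∀ τ : ℂ ≃+* ℂ, (∀ z ∈ cl T, τ z = z) → conjBy τ ∈ H := fun τ hτ =>
      h τ (fun z hz => hτ z (subset_cl _ hz)) fun z hz =>
        hτ z (cl_mono (Set.empty_subset _) (mem_cl_empty (hL z hz)))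
    refine galois_closed hH (fun σ hσ => ?_) σ fun z hz hz' => ?_
    · refine hH.closed σ fun A hA => ?_
      obtain ⟨τ₁, τ₂, τ₃, τ₄, h1, h2, h3, h4, h5⟩ := four_conjugates hinf hd hI hA σ hσ
      exact ⟨(((conjBy τ₁).trans (conjBy τ₂)).trans (conjBy τ₃)).trans (conjBy τ₄),
        hH.mul_mem _ (hH.mul_mem _ (hH.mul_mem _ (h' τ₁ h1) _ (h' τ₂ h2)) _ (h' τ₃ h3)) _
          (h' τ₄ h4), h5⟩
    · refine hσ z (isAlgebraic_of_mem_cl_empty hz) fun τ hτ => ?_
      obtain ⟨ρ, h1, h2⟩ := exists_fix_indep (hI.subset Set.subset_union_left) τ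
      have h3 := hz' _ (h ρ h1 fun y hy => by
        rw [h2 y (mem_cl_empty (hL y hy)), hτ y hy])
      rw [conjBy_apply, RingEquiv.symm_apply_eq, h2 z hz] at h3
      exact cc_eq_self_iff.1 h3
  · intro h τ _ hτ
    refine h _ fun z hz hz' => ?_
    rw [conjBy_apply, cc_eq_self_iff.2 (hz' τ hτ), RingEquiv.symm_apply_apply]

end Pool.Agent.AHC
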